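import Pool.Agent.H498.BT.Dec

/-!
# Products of `R[X] / P_j` and their endomorphisms which commute with `(X + c_j)` modulo `e`
-/

set_option autoImplicit false

namespace Pool.Agent.H498.BT

open Polynomial

variable {R k : Type} [CommRing R] [Field k] (π : R →+* k)

/-- The kernel of `π` is nil and `π` is surjective. -/
structure NilSurj : Prop where
  surj : Function.Surjective π
  nil : ∀ a, π a = 0 → IsNilpotent a

variable {π}

lemma NilSurj.isUnit (hπ : NilSurj π) (a : R) (ha : π a ≠ 0) : IsUnit a := by
  obtain ⟨b, hb⟩ := hπ.surj (π a)⁻¹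
  have h1 : π (1 - a * b) = 0 := by
    rw [map_sub, map_mul, map_one, hb, mul_inv_cancel₀ ha, sub_self]
  have h2 : IsUnit (a * b) := by
    have := (hπ.nil _ h1).isUnit_one_sub
    simpa using this
  exact isUnit_of_mul_isUnit_left h2

section Adj

variable {P : R[X]} {p : k[X]} (hP : P.Monic) (hPp : P.map π = p)

/-- reduction `R[X] / P → k[X] / p` -/
noncomputable def red (hPp : P.map π = p) : AdjoinRoot P →+* AdjoinRoot p :=
  AdjoinRoot.map π P p (by rw [hPp])

lemma red_mk (f : R[X]) : red hPp (AdjoinRoot.mk P f) = AdjoinRoot.mk p (f.map π) := by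
  induction f using Polynomial.induction_on' with
  | add a b ha hb => rw [map_add, map_add, ha, hb, Polynomial.map_add, map_add]
  | monomial n a =>
    rw [← C_mul_X_pow_eq_monomial, map_mul, map_pow, AdjoinRoot.mk_X, AdjoinRoot.mk_C, map_mul, map_pow]
    simp [red]

lemma red_root : red hPp (AdjoinRoot.root P) = AdjoinRoot.root p := by
  simp [red]

lemma red_smul (a : R) (z : AdjoinRoot P) : red hPp (a • z) = π a • red hPp z := by
  rw [Algebra.smul_def, map_mul, Algebra.smul_def]
  simp [red, AdjoinRoot.algebraMap_eq]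

include hP in
lemma red_eq_zero (z : AdjoinRoot P) : red hPp z = 0 ↔
    ∀ i, π ((AdjoinRoot.powerBasisAux' hP).repr z i) = 0 := by
  have h1 : AdjoinRoot.mk P (AdjoinRoot.modByMonicHom hP z) = z := AdjoinRoot.mk_leftInverse hP z
  set f := AdjoinRoot.modByMonicHom hP z with hf
  have h2 : ∀ i : ℕ, P.natDegree ≤ i → f.coeff i = 0 := by
    intro i hi
    by_cases hR : Nontrivial R
    · obtain ⟨g, hg⟩ := AdjoinRoot.mk_surjective z
      have h3 : f.degree < P.degree := by
        rw [hf, ← hg, AdjoinRoot.modByMonicHom_mk]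
        exact degree_modByMonic_lt _ hP
      exact coeff_eq_zero_of_degree_lt (lt_of_lt_of_le h3 (by
        rw [degree_eq_natDegree hP.ne_zero]
        exact_mod_cast hi))
    · rw [not_nontrivial_iff_subsingleton] at hR
      exact Subsingleton.elim _ _
  have hpm : p.Monic := by rw [← hPp]; exact hP.map π
  have hpd : p.natDegree = P.natDegree := by rw [← hPp]; exact hP.natDegree_map π
  rw [← h1, red_mk, AdjoinRoot.mk_eq_zero, h1]
  constructor
  · intro h i
    rw [AdjoinRoot.powerBasisAux'_repr_apply_to_fun, ← hf]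
    have h4 : f.map π = 0 := by
      by_contra hne
      have h5 := natDegree_le_of_dvd h hne
      have h6 : (f.map π).natDegree < P.natDegree := by
        by_contra hcon
        push Not at hcon
        apply hne
        rw [← leadingCoeff_eq_zero, leadingCoeff, coeff_map, h2 _ hcon, map_zero]
      omega
    have h7 := congrArg (fun g => g.coeff (i : ℕ)) h4
    simpa using h7
  · intro h
    have h4 : f.map π = 0 := by
      ext i
      rw [coeff_map, coeff_zero]
      by_cases hi : i < P.natDegree
      · have := h ⟨i, hi⟩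
        rwa [AdjoinRoot.powerBasisAux'_repr_apply_to_fun] at this
      · rw [h2 i (not_lt.1 hi), map_zero]
    rw [h4]
    exact dvd_zero _

include hP in
lemma red_zero_of_smul (hπ : NilSurj π) (z : AdjoinRoot P) (a : R) (ha : a ≠ 0) (h : a • z = 0) :
    red hPp z = 0 := by
  rw [red_eq_zero hP]
  intro i
  by_contra hne
  have hu := hπ.isUnit _ hne
  apply ha
  have h1 := congrArg (fun y => (AdjoinRoot.powerBasisAux' hP).repr y i) h
  simp only [map_smul, Finsupp.smul_apply, map_zero, Finsupp.zero_apply, smul_eq_mul] at h1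
  exact (hu.mul_left_eq_zero).1 h1

include hP in
lemma isUnit_of_red (hπ : NilSurj π) [Fact (Irreducible p)] (z : AdjoinRoot P) (hz : red hPp z ≠ 0) : IsUnit z := by
  have hsurj : Function.Surjective (red hPp) := by
    intro y
    obtain ⟨g, rfl⟩ := AdjoinRoot.mk_surjective y
    obtain ⟨f, rfl⟩ := Polynomial.map_surjective π hπ.surj g
    exact ⟨AdjoinRoot.mk P f, red_mk hPp f⟩
  obtain ⟨w, hw⟩ := hsurj (red hPp z)⁻¹
  have h1 : red hPp (1 - z * w) = 0 := by
    rw [map_sub, map_mul, map_one, hw, mul_inv_cancel₀ hz, sub_self]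
  have h2 : IsNilpotent (1 - z * w) := by
    rw [← (AdjoinRoot.powerBasisAux' hP).sum_repr (1 - z * w)]
    refine isNilpotent_sum fun i _ => ?_
    rw [Algebra.smul_def]
    exact Commute.isNilpotent_mul_right (Commute.all _ _)
      ((hπ.nil _ ((red_eq_zero hP hPp _).1 h1 i)).map _)
  have h3 : IsUnit (z * w) := by
    have := h2.isUnit_one_sub
    simpa using this
  exact isUnit_of_mul_isUnit_left h3

lemma red_surj (hπ : NilSurj π) : Function.Surjective (red hPp) := by
  intro y
  obtain ⟨g, rfl⟩ := AdjoinRoot.mk_surjective y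
  obtain ⟨f, rfl⟩ := Polynomial.map_surjective π hπ.surj g
  exact ⟨AdjoinRoot.mk P f, red_mk hPp f⟩

/-- `P (X + c) = c w` with a unit `w` if `c` reduces to zero. -/
lemma taylor_unit [Fact (Irreducible p)] (hsep : p.Separable) (c : R) (hc : π c = 0) :
    ∃ w : AdjoinRoot P, red hPp w ≠ 0 ∧
      aeval (AdjoinRoot.root P + algebraMap R (AdjoinRoot P) c) P = c • w := by
  obtain ⟨κ, hκ⟩ := Polynomial.binomExpansion (P.map (algebraMap R (AdjoinRoot P))) (AdjoinRoot.root P)
    (algebraMap R (AdjoinRoot P) c)
  refine ⟨aeval (AdjoinRoot.root P) (derivative P) + κ * algebraMap R (AdjoinRoot P) c, ?_, ?_⟩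
  · have h1 : red hPp (algebraMap R (AdjoinRoot P) c) = 0 := by
      have := red_smul hPp c (1 : AdjoinRoot P)
      rw [hc, zero_smul, ← Algebra.algebraMap_eq_smul_one] at this
      exact this
    have h2 : red hPp (aeval (AdjoinRoot.root P) (derivative P)) = aeval (AdjoinRoot.root p) (derivative p) := by
      rw [AdjoinRoot.aeval_eq, red_mk, AdjoinRoot.aeval_eq, ← derivative_map, hPp]
    rw [map_add, map_mul, h1, mul_zero, add_zero, h2]
    obtain ⟨a, b, hab⟩ := hsep
    intro h0
    have h3 := congrArg (aeval (AdjoinRoot.root p)) hab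
    have h4 : aeval (AdjoinRoot.root p) p = 0 := by rw [AdjoinRoot.aeval_eq, AdjoinRoot.mk_self]
    rw [map_add, map_mul, map_mul, h0, mul_zero, add_zero, map_one, h4, mul_zero] at h3
    exact zero_ne_one h3
  · rw [eval_map_algebraMap, eval_map_algebraMap, derivative_map, eval_map_algebraMap] at hκ
    have h4 : aeval (AdjoinRoot.root P) P = 0 := by rw [AdjoinRoot.aeval_eq, AdjoinRoot.mk_self]
    rw [hκ, h4, Algebra.smul_def]
    ring

end Adj

section Prod

variable {r : ℕ} {P : Fin r → R[X]} {p : Fin r → k[X]} (hP : ∀ j, (P j).Monic)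
  (hPp : ∀ j, (P j).map π = p j)

/-- reduction of the product -/
noncomputable def redP (hPp : ∀ j, (P j).map π = p j) :
    (Π j, AdjoinRoot (P j)) →+* (Π j, AdjoinRoot (p j)) :=
  RingHom.pi fun j => (red (hPp j)).comp (Pi.evalRingHom _ j)

lemma redP_apply (z : Π j, AdjoinRoot (P j)) (j : Fin r) : redP hPp z j = red (hPp j) (z j) := rfl

/-- the element `(X + c_j)` -/
noncomputable def bet (P : Fin r → R[X]) (c : Fin r → R) : Π j, AdjoinRoot (P j) :=
  fun j => AdjoinRoot.root (P j) + algebraMap R _ (c j)

lemma aeval_bet (c : Fin r → R) (f : R[X]) (j : Fin r) :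
    aeval (bet P c) f j = aeval (AdjoinRoot.root (P j) + algebraMap R _ (c j)) f := by
  have := Polynomial.aeval_algHom_apply (Pi.evalAlgHom R (fun j => AdjoinRoot (P j)) j) (bet P c) f
  exact this.symm

section Endo

variable (c : Fin r → R) (e : R) (x : (Π j, AdjoinRoot (P j)) →ₗ[R] (Π j, AdjoinRoot (P j)))
  (hx : ∀ z, e • x (bet P c * z) = e • (bet P c * x z))

include hx in
lemma comm_aeval (f : R[X]) (z : Π j, AdjoinRoot (P j)) :
    e • x (aeval (bet P c) f * z) = e • (aeval (bet P c) f * x z) := by
  induction f using Polynomial.induction_on' generalizing z with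
  | add a b ha hb => rw [map_add, add_mul, map_add, smul_add, ha, hb, add_mul, smul_add]
  | monomial n a =>
    have h0 : aeval (bet P c) (monomial n a) = a • bet P c ^ n := by
      rw [aeval_monomial, Algebra.smul_def]
    rw [h0, smul_mul_assoc, smul_mul_assoc, map_smul, smul_comm e a, smul_comm e a]
    congr 1
    clear h0
    induction n generalizing z with
    | zero => simp
    | succ n ih =>
      rw [pow_succ', mul_assoc, hx, mul_assoc, ← mul_smul_comm, ← mul_smul_comm, ih]

variable (hπ : NilSurj π) (hpi : ∀ j, Irreducible (p j)) (hsep : ∀ j, (p j).Separable)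
  (hpP : ∀ i j, p i = p j → P i = P j) (hc0 : ∀ j, π (c j) = 0)
  (hcd : ∀ i j, i ≠ j → e * (c i - c j) ≠ 0) (he : e ≠ 0)

include hP hx hπ hpi hsep hpP hc0 hcd he in
lemma offdiag (i j : Fin r) (hij : i ≠ j) (y : AdjoinRoot (P j)) :
    red (hPp i) (x (Pi.single j y) i) = 0 := by
  classical
  have := Fact.mk (hpi i)
  set f : R[X] := (P j).comp (X - C (c j)) with hf
  have h1 := comm_aeval c e x hx f (Pi.single j y)
  have h2 : aeval (bet P c) f * Pi.single j y = 0 := by
    funext l
    rw [Pi.mul_apply, aeval_bet]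
    by_cases hl : l = j
    · subst hl
      rw [hf, aeval_comp]
      simp only [map_sub, aeval_X, aeval_C, add_sub_cancel_right]
      rw [AdjoinRoot.aeval_eq, AdjoinRoot.mk_self, zero_mul]
      rfl
    · rw [Pi.single_eq_of_ne hl, mul_zero]; rfl
  rw [h2, map_zero, smul_zero] at h1
  have h3 := congrFun h1.symm i
  rw [Pi.smul_apply, Pi.mul_apply, aeval_bet, Pi.zero_apply] at h3
  have h4 : aeval (AdjoinRoot.root (P i) + algebraMap R _ (c i)) f =
      aeval (AdjoinRoot.root (P i) + algebraMap R _ (c i - c j)) (P j) := by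
    rw [hf, aeval_comp]
    congr 2
    simp only [map_sub, aeval_X, aeval_C]
    abel
  rw [h4] at h3
  by_cases hpp : p i = p j
  · have hPP := hpP i j hpp
    obtain ⟨w, hw1, hw2⟩ := taylor_unit (hPp i) (hsep i) (c i - c j) (by rw [map_sub, hc0, hc0, sub_zero])
    rw [← hPP, hw2] at h3
    have hwu := isUnit_of_red (hP i) (hPp i) hπ w hw1
    have h5 : w * ((e * (c i - c j)) • x (Pi.single j y) i) = 0 := by
      rw [mul_smul_comm, mul_smul, ← h3, smul_mul_assoc]
    exact red_zero_of_smul (hP i) (hPp i) hπ _ _ (hcd i j hij) ((hwu.mul_right_eq_zero).1 h5)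
  · have h6 : red (hPp i) (aeval (AdjoinRoot.root (P i) + algebraMap R _ (c i - c j)) (P j)) ≠ 0 := by
      have h7 : red (hPp i) (aeval (AdjoinRoot.root (P i) + algebraMap R _ (c i - c j)) (P j)) =
          AdjoinRoot.mk (p i) (p j) := by
        have h8 : ∀ (g : R[X]) (a : R), π a = 0 →
            red (hPp i) (aeval (AdjoinRoot.root (P i) + algebraMap R _ a) g) =
              AdjoinRoot.mk (p i) (g.map π) := by
          intro g a ha
          have h9 : red (hPp i) (AdjoinRoot.root (P i) + algebraMap R _ a) = AdjoinRoot.root (p i) := by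
            have := red_smul (hPp i) a (1 : AdjoinRoot (P i))
            rw [ha, zero_smul, ← Algebra.algebraMap_eq_smul_one] at this
            rw [map_add, this, add_zero, red_root]
          induction g using Polynomial.induction_on' with
          | add a b ha hb => rw [map_add, map_add, ha, hb, Polynomial.map_add, map_add]
          | monomial n a =>
            rw [aeval_monomial, map_mul, map_pow, h9, ← mul_one (algebraMap R _ a),
              ← smul_eq_mul (algebraMap R _ a), algebraMap_smul, red_smul, map_one, map_monomial,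
              ← C_mul_X_pow_eq_monomial, map_mul, map_pow, AdjoinRoot.mk_X, AdjoinRoot.mk_C,
              Algebra.smul_def, mul_one, AdjoinRoot.algebraMap_eq]
        rw [h8 (P j) (c i - c j) (by rw [map_sub, hc0, hc0, sub_zero]), hPp j]
      rw [h7, Ne, AdjoinRoot.mk_eq_zero]
      intro hdvd
      apply hpp
      have hm : ∀ l, (p l).Monic := fun l => by rw [← hPp l]; exact (hP l).map π
      exact eq_of_monic_of_associated (hm i) (hm j)
        ((hpi i).associated_of_dvd (hpi j) hdvd)
    have hwu := isUnit_of_red (hP i) (hPp i) hπ _ h6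
    have h5 : aeval (AdjoinRoot.root (P i) + algebraMap R _ (c i - c j)) (P j) * (e • x (Pi.single j y) i) = 0 := by
      rw [mul_smul_comm, ← h3]
    exact red_zero_of_smul (hP i) (hPp i) hπ _ _ he ((hwu.mul_right_eq_zero).1 h5)

include hP hx hπ hpi hsep hpP hc0 hcd he in
/-- The reduction of `x` is a multiplication. -/
theorem red_mul (z : Π j, AdjoinRoot (P j)) : redP hPp (x z) = redP hPp (x 1) * redP hPp z := by
  classical
  funext i
  have hsum : ∀ z : Π j, AdjoinRoot (P j), red (hPp i) (x z i) = red (hPp i) (x (Pi.single i (z i)) i) := by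
    intro z
    have h1 : z = ∑ j, Pi.single j (z j) := (Finset.univ_sum_single z).symm
    conv_lhs => rw [h1]
    rw [map_sum, Finset.sum_apply, map_sum]
    refine Finset.sum_eq_single i (fun j _ hj => ?_) (fun h => absurd (Finset.mem_univ i) h)
    exact offdiag hP hPp c e x hx hπ hpi hsep hpP hc0 hcd he i j (Ne.symm hj) (z j)
  rw [redP_apply, Pi.mul_apply, redP_apply, redP_apply, hsum z, hsum 1]
  obtain ⟨g, hg⟩ := AdjoinRoot.mk_surjective (z i)
  set f : R[X] := g.comp (X - C (c i)) with hf
  have h1 := comm_aeval c e x hx f (Pi.single i 1)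
  have h2 : aeval (bet P c) f i = z i := by
    rw [aeval_bet, hf, aeval_comp]
    simp only [map_sub, aeval_X, aeval_C, add_sub_cancel_right]
    rw [AdjoinRoot.aeval_eq, hg]
  have h3 : aeval (bet P c) f * Pi.single i 1 = Pi.single i (z i) := by
    funext l
    rw [Pi.mul_apply]
    by_cases hl : l = i
    · subst hl
      rw [h2, Pi.single_eq_same, Pi.single_eq_same, mul_one]
    · rw [Pi.single_eq_of_ne hl, Pi.single_eq_of_ne hl, mul_zero]
  rw [h3] at h1
  have h4 := congrFun h1 i
  rw [Pi.smul_apply, Pi.smul_apply, Pi.mul_apply, h2, ← sub_eq_zero, ← smul_sub] at h4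
  have h5 := red_zero_of_smul (hP i) (hPp i) hπ _ _ he h4
  rw [map_sub, sub_eq_zero, map_mul] at h5
  rw [h5, mul_comm]
  rfl

end Endo

end Prod

end Pool.Agent.H498.BT
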