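import Pool.Agent.H498.BT.Den
import Pool.Graph.R_pool_sql_team_seeded_63374d34.N28.BM.Thm

/-!
# Brauer's theorem: the Brauer characters of pairwise non-isomorphic irreducible representations are linearly independent over `ℂ`
-/

set_option autoImplicit false

namespace Pool.Agent.H498.BT

open Module Polynomial Matrix Pool.Agent.N28.BM

/-- Linearly independent functions have a nonzero determinant at some points. -/
lemma exists_points {F W P : Type} [Field F] [Fintype W] [DecidableEq W] (φ : W → P → F)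
    (h : LinearIndependent F φ) : ∃ x : W → P, (Matrix.of fun w w' => φ w (x w')).det ≠ 0 := by
  classical
  set v : P → (W → F) := fun x w => φ w x with hv
  have hspan : Submodule.span F (Set.range v) = ⊤ := by
    by_contra hne
    obtain ⟨f, hf0, hf⟩ := Submodule.exists_le_ker_of_lt_top _ (lt_top_iff_ne_top.2 hne)
    apply hf0
    have h1 : ∑ w, f (Pi.single w 1) • φ w = 0 := by
      funext x
      have h2 : f (v x) = 0 := hf (Submodule.subset_span ⟨x, rfl⟩)
      rw [pi_eq_sum_univ' (v x), map_sum] at h2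
      rw [Finset.sum_apply, Pi.zero_apply, ← h2]
      refine Finset.sum_congr rfl fun w _ => ?_
      rw [map_smul, Pi.smul_apply, smul_eq_mul, smul_eq_mul, mul_comm]
    have h3 := Fintype.linearIndependent_iff.1 h _ h1
    apply LinearMap.ext
    intro y
    rw [pi_eq_sum_univ' y, map_sum, LinearMap.zero_apply]
    refine Finset.sum_eq_zero fun w _ => ?_
    rw [map_smul, h3 w, smul_zero]
  obtain ⟨κ, a, _, ha2, ha3⟩ := exists_linearIndependent' F v
  rw [hspan] at ha2
  let b : Basis κ F (W → F) := Basis.mk ha3 (by rw [ha2])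
  let e : κ ≃ W := b.indexEquiv (Pi.basisFun F W)
  refine ⟨fun w' => a (e.symm w'), ?_⟩
  have h4 : LinearIndependent F (fun w' => v (a (e.symm w'))) := ha3.comp _ e.symm.injective
  have h5 : IsUnit (Matrix.of fun w w' => φ w (a (e.symm w'))) := by
    rw [← Matrix.linearIndependent_cols_iff_isUnit]
    exact h4
  exact ((Matrix.isUnit_iff_isUnit_det _).1 h5).ne_zero

section Frob

variable {F : Type} [Field F] {p : ℕ} [Fact p.Prime] [CharP F p]

lemma expand_charpoly {d : ℕ} (M : Matrix (Fin d) (Fin d) F) (a : ℕ) :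
    expand F (p ^ a) (M ^ (p ^ a)).charpoly = M.charpoly ^ (p ^ a) := by
  cases isEmpty_or_nonempty (Fin d)
  · have h1 : ∀ N : Matrix (Fin d) (Fin d) F, N.charpoly = 1 := by
      intro N
      unfold Matrix.charpoly
      exact Matrix.det_isEmpty
    rw [h1, h1, map_one, one_pow]
  · unfold Matrix.charpoly
    rw [AlgHom.map_det, ← coe_detMonoidHom, ← (detMonoidHom : Matrix (Fin d) (Fin d) F[X] →* F[X]).map_pow]
    apply congr_arg det
    refine matPolyEquiv.injective ?_
    rw [map_pow, matPolyEquiv_charmatrix, sub_pow_char_pow_of_commute, ← C_pow]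
    · exact (id (matPolyEquiv_eq_X_pow_sub_C (p ^ a) M) :)
    · exact (C M).commute_X

lemma charpoly_pow {d : ℕ} (M : Matrix (Fin d) (Fin d) F) (a : ℕ) (y : Fin d → F)
    (h : M.charpoly = ∏ i, (X - C (y i))) : (M ^ (p ^ a)).charpoly = ∏ i, (X - C (y i ^ (p ^ a))) := by
  have hp : 0 < p ^ a := pow_pos (Fact.out : p.Prime).pos _
  apply expand_injective hp
  rw [expand_charpoly, h, map_prod, ← Finset.prod_pow]
  refine Finset.prod_congr rfl fun i _ => ?_
  rw [map_sub, expand_X, expand_C, C_pow]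
  exact sub_pow_char_pow X (C (y i)) a

lemma trace_of_charpoly [IsAlgClosed F] {d : ℕ} (M : Matrix (Fin d) (Fin d) F) (y : Fin d → F)
    (h : M.charpoly = ∏ i, (X - C (y i))) : M.trace = ∑ i, y i := by
  rw [Matrix.trace_eq_sum_roots_charpoly, h]
  have : (∏ i, (X - C (y i))) = ((Finset.univ.val.map y).map (fun a => X - C a)).prod := by
    rw [Multiset.map_map]; rfl
  rw [this, roots_multiset_prod_X_sub_C]
  rfl

end Frob

lemma root_pow {F : Type} [Field F] {d : ℕ} (A : Matrix (Fin d) (Fin d) F) (y : Fin d → F)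
    (h : A.charpoly = ∏ i, (X - C (y i))) (E : ℕ) (hpow : A ^ E = 1) (i : Fin d) : y i ^ E = 1 := by
  have hroot : A.charpoly.eval (y i) = 0 := by
    rw [h, Polynomial.eval_prod]
    exact Finset.prod_eq_zero (Finset.mem_univ i) (by simp)
  rw [Matrix.eval_charpoly] at hroot
  have hcomm : Commute (Matrix.scalar (Fin d) (y i)) A :=
    Matrix.scalar_commute _ (fun r' => Commute.all _ _) _
  have hgeom := hcomm.mul_geom_sum₂ E
  have hdet := congrArg Matrix.det hgeom
  rw [Matrix.det_mul, hroot, zero_mul, hpow] at hdet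
  have h4 : (Matrix.scalar (Fin d) (y i)) ^ E - 1 =
      Matrix.scalar (Fin d) (y i ^ E - 1) := by
    rw [map_sub, map_pow, map_one]
  rw [h4] at hdet
  have h5 : (Matrix.scalar (Fin d) (y i ^ E - 1)).det = (y i ^ E - 1) ^ d := by
    simp [Matrix.scalar_apply, Matrix.det_diagonal]
  rw [h5] at hdet
  have h6 : y i ^ E - 1 = 0 :=
    (pow_eq_zero_iff (by have := i.2; omega)).mp hdet.symm
  exact sub_eq_zero.mp h6

section Brauer

variable {G : Type} [Group G] {F : Type} [Field F]

/-- The representation `ρ` on the column vectors is irreducible. -/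
def IrrRep {d : ℕ} (ρ : G →* GL (Fin d) F) : Prop :=
  0 < d ∧ ∀ U : Submodule F (Fin d → F), (∀ g, ∀ v ∈ U, (ρ g : Matrix (Fin d) (Fin d) F) *ᵥ v ∈ U) → U = ⊥ ∨ U = ⊤

/-- The representations `ρ` and `ρ'` are isomorphic. -/
def IsoRep {d d' : ℕ} (ρ : G →* GL (Fin d) F) (ρ' : G →* GL (Fin d') F) : Prop :=
  ∃ e : (Fin d → F) ≃ₗ[F] (Fin d' → F), ∀ g v,
    e ((ρ g : Matrix (Fin d) (Fin d) F) *ᵥ v) = (ρ' g : Matrix (Fin d') (Fin d') F) *ᵥ (e v)

/-- the associated representation -/
def toRep {d : ℕ} (ρ : G →* GL (Fin d) F) : Representation F G (Fin d → F) where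
  toFun g := Matrix.toLin' (ρ g : Matrix (Fin d) (Fin d) F)
  map_one' := by rw [map_one, Units.val_one, Matrix.toLin'_one]; rfl
  map_mul' a b := by rw [map_mul, Units.val_mul, Matrix.toLin'_mul]; rfl

lemma toRep_irr {d : ℕ} (ρ : G →* GL (Fin d) F) (h : IrrRep ρ) : (toRep ρ).IsIrreducible := by
  have hn : Nontrivial (Subrepresentation (toRep ρ)) := by
    refine ⟨⊥, ⊤, fun h' => ?_⟩
    have h1 := congrArg Subrepresentation.toSubmodule h'
    have : Nonempty (Fin d) := ⟨⟨0, h.1⟩⟩
    exact bot_ne_top h1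
  exact { eq_bot_or_eq_top := fun a => by
            rcases h.2 a.toSubmodule (fun g v hv => a.apply_mem_toSubmodule g hv) with h1 | h1
            · left; exact Subrepresentation.toSubmodule_injective h1
            · right; exact Subrepresentation.toSubmodule_injective h1 }

variable [Finite G] [IsAlgClosed F] (p : ℕ) [hp : Fact p.Prime] [CharP F p] (t : Fˣ →* ℂˣ)
  (ht : Function.Injective t) {W : Type} [Fintype W] (d : W → ℕ) (ρ : ∀ w, G →* GL (Fin (d w)) F)
  (hirr : ∀ w, IrrRep (ρ w)) (hiso : ∀ w w', w ≠ w' → ¬ IsoRep (ρ w) (ρ w')) (br : W → G → ℂ)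
  (hbr : ∀ w g (y : Fin (d w) → Fˣ), IsEigen (RingHom.id F) (ρ w g) y → br w g = ∑ i, ((t (y i) : ℂˣ) : ℂ))

omit [Finite G] [IsAlgClosed F] in
include hp in
lemma eig_pow {w : ℕ} (M : GL (Fin w) F) (y : Fin w → Fˣ) (a : ℕ)
    (h : IsEigen (RingHom.id F) M y) : IsEigen (RingHom.id F) (M ^ (p ^ a)) (fun i => y i ^ (p ^ a)) := by
  unfold IsEigen at h ⊢
  rw [Polynomial.map_id] at h ⊢
  rw [Units.val_pow_eq_pow_val, charpoly_pow _ _ _ h]
  simp

include hirr hiso ht hbr in
/-- **Brauer's theorem.** -/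
theorem brauer : LinearIndependent ℂ (fun (w : W) (g : {g : G // ¬ p ∣ orderOf g}) => br w g) := by
  classical
  have hlist : ∀ w g, ∃ y : Fin (d w) → Fˣ, IsEigen (RingHom.id F) (ρ w g) y := by
    intro w g
    obtain ⟨d', hd'⟩ : ∃ d', d w = d' + 1 := ⟨d w - 1, by have := (hirr w).1; omega⟩
    have key : ∀ (D : ℕ) (hD : D = d' + 1) (M : GL (Fin D) F), ∃ y : Fin D → Fˣ, IsEigen (RingHom.id F) M y := by
      intro D hD M
      subst hD
      exact list_eigen (RingHom.id F) M
    exact key _ hd' (ρ w g)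
  choose y hy using hlist
  have hchar : ∀ w g, ((ρ w g : GL (Fin (d w)) F) : Matrix (Fin (d w)) (Fin (d w)) F).charpoly =
      ∏ i, (X - C ((y w g i : Fˣ) : F)) := by
    intro w g
    have := hy w g
    unfold IsEigen at this
    rwa [Polynomial.map_id] at this
  -- the traces on the p-regular elements are linearly independent
  have h1 : LinearIndependent F (fun (w : W) (g : {g : G // ¬ p ∣ orderOf g}) => (∑ i, ((y w g i : Fˣ) : F) : F)) := by
    rw [Fintype.linearIndependent_iff]
    intro a ha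
    have h2 := indep_trace (fun w => Fin (d w) → F) (fun w => toRep (ρ w)) (fun w => toRep_irr _ (hirr w))
      (fun w w' hw => by
        rintro ⟨e, he⟩
        exact hiso w w' hw ⟨e, fun g v => he g v⟩)
    rw [Fintype.linearIndependent_iff] at h2
    apply h2 a
    funext g
    rw [Finset.sum_apply, Pi.zero_apply]
    -- the p-regular part
    obtain ⟨b, m, hm, hbm⟩ := Nat.exists_eq_pow_mul_and_not_dvd (orderOf_pos g).ne' p hp.out.ne_one
    have hcop : Nat.Coprime p m := (Nat.Prime.coprime_iff_not_dvd hp.out).2 hm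
    obtain ⟨N, hNb, hN⟩ : ∃ N, b ≤ N ∧ p ^ N ≡ 1 [MOD m] := by
      refine ⟨m.totient * (b + 1), ?_, ?_⟩
      · have hm0 : 0 < m := Nat.pos_of_ne_zero (by rintro rfl; exact hm (dvd_zero p))
        have := Nat.totient_pos.2 hm0
        nlinarith
      · rw [pow_mul]
        have := (Nat.ModEq.pow_totient hcop).pow (b + 1)
        rwa [one_pow] at this
    have hreg : ¬ p ∣ orderOf (g ^ (p ^ N)) := by
      intro hd
      have h3 : orderOf (g ^ (p ^ N)) ∣ m := by
        rw [orderOf_dvd_iff_pow_eq_one, ← pow_mul, ← orderOf_dvd_iff_pow_eq_one, hbm]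
        exact Nat.mul_dvd_mul_right (pow_dvd_pow p hNb) m
      exact hm (hd.trans h3)
    have hyg : ∀ w i, ((y w g i : Fˣ) : F) ^ (p ^ N) = ((y w g i : Fˣ) : F) := by
      intro w i
      have h4 : ((y w g i : Fˣ) : F) ^ (p ^ b * m) = 1 := by
        refine root_pow _ (fun i => ((y w g i : Fˣ) : F)) (hchar w g) _ ?_ i
        rw [← Units.val_pow_eq_pow_val, ← map_pow, ← hbm, pow_orderOf_eq_one, map_one, Units.val_one]
      have h5 : ((y w g i : Fˣ) : F) ^ m = 1 := by
        rw [mul_comm, pow_mul] at h4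
        have h6 : (((y w g i : Fˣ) : F) ^ m) ^ (p ^ b) = 1 ^ (p ^ b) := by rw [h4, one_pow]
        exact iterateFrobenius_inj F p b h6
      obtain ⟨k, hk⟩ := (Nat.modEq_iff_dvd' (Nat.one_le_pow _ _ hp.out.pos)).1 hN.symm
      have h6 : p ^ N = m * k + 1 := by
        have := Nat.one_le_pow N p hp.out.pos
        omega
      rw [h6, pow_succ, pow_mul, h5, one_pow, one_mul]
    have htr : ∀ w, LinearMap.trace F (Fin (d w) → F) (toRep (ρ w) g) =
        ∑ i, ((y w (g ^ (p ^ N)) i : Fˣ) : F) := by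
      intro w
      have e1 : LinearMap.trace F (Fin (d w) → F) (toRep (ρ w) g) =
          ((ρ w g : GL (Fin (d w)) F) : Matrix (Fin (d w)) (Fin (d w)) F).trace := by
        show LinearMap.trace F (Fin (d w) → F) (Matrix.toLin' _) = _
        exact Matrix.trace_toLin'_eq _
      rw [e1, trace_of_charpoly _ _ (hchar w g), ← trace_of_charpoly _ _ (hchar w (g ^ (p ^ N)))]
      have e2 := charpoly_pow (p := p) _ N _ (hchar w g)
      rw [map_pow, Units.val_pow_eq_pow_val, trace_of_charpoly _ _ e2]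
      exact Finset.sum_congr rfl fun i _ => (hyg w i).symm
    have h7 := congrFun ha ⟨g ^ (p ^ N), hreg⟩
    rw [Finset.sum_apply, Pi.zero_apply] at h7
    rw [← h7]
    refine Finset.sum_congr rfl fun w _ => ?_
    rw [Pi.smul_apply, Pi.smul_apply, htr]
  obtain ⟨x, hx⟩ := exists_points _ h1
  -- roots of unity
  set L : ℕ := ∏ w, orderOf (x w : G) with hL
  have hLp : ¬ p ∣ L := by
    rw [hL, hp.out.prime.dvd_finsetProd_iff]
    rintro ⟨w, _, hw⟩
    exact (x w).2 hw
  have hL0 : 0 < L := Nat.pos_of_ne_zero (by rintro h; exact hLp (h ▸ dvd_zero p))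
  have : NeZero (L : F) := ⟨by rw [Ne, CharP.cast_eq_zero_iff F p]; exact hLp⟩
  have : NeZero L := ⟨hL0.ne'⟩
  obtain ⟨z', hz'⟩ := HasEnoughRootsOfUnity.exists_primitiveRoot F L
  obtain ⟨ζ, rfl⟩ := hz'.isUnit hL0.ne'
  have hζ : IsPrimitiveRoot ζ L := IsPrimitiveRoot.coe_units_iff.1 hz'
  have hω : IsPrimitiveRoot (t ζ) L := hζ.map_of_injective ht
  have hω' : IsPrimitiveRoot ((t ζ : ℂˣ) : ℂ) L := IsPrimitiveRoot.coe_units_iff.2 hω
  have hexp : ∀ w w' i, ∃ a : ℕ, y w (x w') i = ζ ^ a := by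
    intro w w' i
    have h4 : ((y w (x w') i : Fˣ) : F) ^ L = 1 := by
      refine root_pow _ (fun i => ((y w (x w') i : Fˣ) : F)) (hchar w (x w')) _ ?_ i
      rw [← Units.val_pow_eq_pow_val, ← map_pow]
      have h5 : (x w' : G) ^ L = 1 := by
        rw [← orderOf_dvd_iff_pow_eq_one]
        exact Finset.dvd_prod_of_mem _ (Finset.mem_univ w')
      rw [h5, map_one, Units.val_one]
    obtain ⟨a, _, ha⟩ := hz'.eq_pow_of_pow_eq_one h4
    exact ⟨a, Units.ext (by rw [Units.val_pow_eq_pow_val, ha])⟩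
  choose a ha using hexp
  set B : Matrix W W ℤ[X] := Matrix.of fun w w' => ∑ i, X ^ (a w w' i) with hB
  have hBF : (B.map (aeval ((ζ : Fˣ) : F))) = Matrix.of fun w w' => ∑ i, ((y w (x w') i : Fˣ) : F) := by
    ext w w'
    simp only [hB, Matrix.map_apply, Matrix.of_apply, map_sum, map_pow, aeval_X]
    refine Finset.sum_congr rfl fun i _ => ?_
    rw [ha, Units.val_pow_eq_pow_val]
  have hBC : (B.map (aeval ((t ζ : ℂˣ) : ℂ))) = Matrix.of fun w w' => br w (x w') := by
    ext w w'
    simp only [hB, Matrix.map_apply, Matrix.of_apply, map_sum, map_pow, aeval_X]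
    rw [hbr w (x w') _ (hy w (x w'))]
    refine Finset.sum_congr rfl fun i _ => ?_
    rw [ha, map_pow, Units.val_pow_eq_pow_val]
  have hdet : (Matrix.of fun w w' => br w (x w')).det ≠ 0 := by
    intro h0
    rw [← hBC] at h0
    have h2 : aeval ((t ζ : ℂˣ) : ℂ) B.det = 0 := by
      rw [← h0]
      exact AlgHom.map_det _ B
    have h3 : cyclotomic L ℤ ∣ B.det := by
      rw [cyclotomic_eq_minpoly hω' hL0]
      exact minpoly.isIntegrallyClosed_dvd (hω'.isIntegral hL0) h2
    have h4 : aeval ((ζ : Fˣ) : F) B.det = 0 := by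
      obtain ⟨g, hg⟩ := h3
      rw [hg, map_mul]
      have h5 : aeval ((ζ : Fˣ) : F) (cyclotomic L ℤ) = 0 := by
        have h6 := hz'.isRoot_cyclotomic hL0
        rw [← map_cyclotomic_int L F, IsRoot.def, eval_map] at h6
        rw [aeval_def]
        exact h6
      rw [h5, zero_mul]
    apply hx
    have h7 : (Matrix.of fun w w' => (∑ i, ((y w (x w') i : Fˣ) : F) : F)).det = aeval ((ζ : Fˣ) : F) B.det := by
      rw [← hBF]
      exact (AlgHom.map_det _ B).symm
    exact h7.trans h4
  rw [Fintype.linearIndependent_iff]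
  intro c hc
  have h8 : c ᵥ* (Matrix.of fun w w' => br w (x w')) = 0 := by
    funext w'
    have := congrFun hc (x w')
    rw [Finset.sum_apply, Pi.zero_apply] at this
    rw [Pi.zero_apply, ← this]
    rfl
  exact congrFun (Matrix.eq_zero_of_vecMul_eq_zero hdet h8)

end Brauer

end Pool.Agent.H498.BT
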