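import Pool.Agent.H498.BT.Rep

/-!
# Class functions as combinations of irreducible characters which contain given characters of a normal p-subgroup
-/

set_option autoImplicit false

namespace Pool.Agent.H498.BT

open Module

variable {G : Type} [Group G] [Finite G] {K : Subgroup G} {χ : K →* ℂˣ}

lemma trace_fun (ι : Type) [Fintype ι] [DecidableEq ι] (F : (ι → ℂ) →ₗ[ℂ] (ι → ℂ)) :
    LinearMap.trace ℂ (ι → ℂ) F = ∑ x, F (Pi.single x 1) x := by
  rw [LinearMap.trace_eq_matrix_trace ℂ (Pi.basisFun ℂ ι), Matrix.trace]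
  refine Finset.sum_congr rfl fun x _ => ?_
  rw [Matrix.diag_apply, LinearMap.toMatrix_apply, Pi.basisFun_repr, Pi.basisFun_apply]

section Tu

variable [hKn : K.Normal] (u : G) (hu : ∀ κ : K, χ ⟨u * κ * u⁻¹, hKn.conj_mem _ κ.2 u⟩ = χ κ)

include hu in
omit [Finite G] in
lemma Tu_mem (f : G → ℂ) (hf : f ∈ spE K χ) : (fun x => f (u * x)) ∈ spE K χ := by
  intro κ x
  have h1 : u * ((κ : G) * x) = ((⟨u * κ * u⁻¹, hKn.conj_mem _ κ.2 u⟩ : K) : G) * (u * x) := by
    show u * ((κ : G) * x) = u * κ * u⁻¹ * (u * x)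
    group
  show f (u * (κ * x)) = _ * f (u * x)
  rw [h1, hf, hu]

/-- left translation by `u` -/
def Tu : spE K χ →ₗ[ℂ] spE K χ where
  toFun f := ⟨fun x => (f : G → ℂ) (u * x), Tu_mem u hu f f.2⟩
  map_add' _ _ := rfl
  map_smul' _ _ := rfl

/-- the operator on all functions -/
noncomputable def Fu (K : Subgroup G) (χ : K →* ℂˣ) [Fintype K] (u g : G) : (G → ℂ) →ₗ[ℂ] (G → ℂ) where
  toFun f := fun x => (Fintype.card K : ℂ)⁻¹ * ∑ κ : K, (((χ κ)⁻¹ : ℂˣ) : ℂ) * f (κ * u * x * g)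
  map_add' a b := by
    funext x
    simp only [Pi.add_apply, mul_add, Finset.sum_add_distrib]
  map_smul' c a := by
    funext x
    simp only [Pi.smul_apply, smul_eq_mul, RingHom.id_apply, Finset.mul_sum]
    refine Finset.sum_congr rfl fun κ _ => ?_
    ring

include hu in
omit [Finite G] in
lemma Fu_mem [Fintype K] (g : G) (f : G → ℂ) : Fu K χ u g f ∈ spE K χ := by
  intro κ' x
  show (Fintype.card K : ℂ)⁻¹ * ∑ κ : K, (((χ κ)⁻¹ : ℂˣ) : ℂ) * f (κ * u * (κ' * x) * g) =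
    ((χ κ' : ℂˣ) : ℂ) * ((Fintype.card K : ℂ)⁻¹ * ∑ κ : K, (((χ κ)⁻¹ : ℂˣ) : ℂ) * f (κ * u * x * g))
  rw [mul_left_comm]
  congr 1
  rw [Finset.mul_sum]
  set w : K := ⟨u * κ' * u⁻¹, hKn.conj_mem _ κ'.2 u⟩ with hw
  refine Finset.sum_bij' (fun κ _ => κ * w) (fun κ _ => κ * w⁻¹) (fun _ _ => Finset.mem_univ _)
    (fun _ _ => Finset.mem_univ _) (fun κ _ => by simp) (fun κ _ => by simp) ?_
  intro κ _
  have h1 : (κ : G) * u * (κ' * x) * g = ((κ * w : K) : G) * u * x * g := by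
    rw [Subgroup.coe_mul, hw]
    show (κ : G) * u * (κ' * x) * g = κ * (u * κ' * u⁻¹) * u * x * g
    group
  rw [h1, ← mul_assoc]
  congr 1
  have h2 : χ κ' = χ w := (hu κ').symm
  rw [h2, ← Units.val_mul, map_mul, mul_inv_rev, mul_inv_cancel_left]

lemma trace_Tu [Fintype K] [Fintype G] [DecidableEq G] (g : G) :
    LinearMap.trace ℂ (spE K χ) (repE K χ g ∘ₗ Tu u hu) =
      ∑ x : G, (Fintype.card K : ℂ)⁻¹ * ∑ κ : K, if (κ : G) * u * x * g = x then (((χ κ)⁻¹ : ℂˣ) : ℂ) else 0 := by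
  have h1 : repE K χ g ∘ₗ Tu u hu = (Fu K χ u g).restrict (fun f _ => Fu_mem u hu g f) := by
    apply LinearMap.ext
    intro f
    apply Subtype.ext
    funext x
    show (f : G → ℂ) (u * (x * g)) = (Fintype.card K : ℂ)⁻¹ * ∑ κ : K, (((χ κ)⁻¹ : ℂˣ) : ℂ) * (f : G → ℂ) (κ * u * x * g)
    have h2 : ∀ κ : K, (((χ κ)⁻¹ : ℂˣ) : ℂ) * (f : G → ℂ) (κ * u * x * g) = (f : G → ℂ) (u * (x * g)) := by
      intro κ
      have h3 : (κ : G) * u * x * g = κ * (u * (x * g)) := by group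
      rw [h3, f.2 κ, ← mul_assoc, ← Units.val_mul, inv_mul_cancel, Units.val_one, one_mul]
    have h4 : (Fintype.card K : ℂ) ≠ 0 := by exact_mod_cast Fintype.card_ne_zero
    rw [Finset.sum_congr rfl (fun κ _ => h2 κ), Finset.sum_const, Finset.card_univ, nsmul_eq_mul,
      inv_mul_cancel_left₀ h4]
  rw [h1, LinearMap.trace_restrict_eq_of_forall_mem _ _ (Fu_mem u hu g), trace_fun]
  refine Finset.sum_congr rfl fun x _ => ?_
  show (Fintype.card K : ℂ)⁻¹ * ∑ κ : K, (((χ κ)⁻¹ : ℂˣ) : ℂ) * (Pi.single x 1 : G → ℂ) (κ * u * x * g) = _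
  congr 1
  refine Finset.sum_congr rfl fun κ _ => ?_
  rw [Pi.single_apply]
  split_ifs <;> simp

include hu in
omit [Finite G] in
lemma pow_conj (κ : K) (m : ℕ) : ∃ κm : K, ((u⁻¹ * κ) ^ m : G) = u⁻¹ ^ m * κm ∧ χ κm = χ κ ^ m := by
  induction m with
  | zero => exact ⟨1, by simp, by simp⟩
  | succ m ih =>
    obtain ⟨κm, h1, h2⟩ := ih
    refine ⟨⟨u * κm * u⁻¹, hKn.conj_mem _ κm.2 u⟩ * κ, ?_, ?_⟩
    · rw [pow_succ, h1, Subgroup.coe_mul]
      show u⁻¹ ^ m * (κm : G) * (u⁻¹ * κ) = u⁻¹ ^ (m + 1) * (u * κm * u⁻¹ * κ)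
      rw [pow_succ]
      group
    · rw [map_mul, hu, h2, pow_succ]

include hu in
lemma chi_one (p : ℕ) [Fact p.Prime] (hK : IsPGroup p K) (hur : ¬ p ∣ orderOf u) (g : G) (hg : ¬ p ∣ orderOf g)
    (κ : K) (x : G) (h : (κ : G) * u * x * g = x) : χ κ = 1 := by
  have hp : p.Prime := Fact.out
  have hv : x * g * x⁻¹ = u⁻¹ * (κ⁻¹ : K) := by
    rw [Subgroup.coe_inv, ← mul_inv_rev]
    rw [eq_inv_iff_mul_eq_one]
    have h2 : x * g = (κ * u)⁻¹ * x := by
      rw [eq_inv_mul_iff_mul_eq]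
      rw [← mul_assoc]
      exact h
    rw [h2]
    group
  set N := orderOf u * orderOf g with hN
  obtain ⟨κm, h1, h2⟩ := pow_conj u hu κ⁻¹ N
  rw [← hv] at h1
  have h3 : (x * g * x⁻¹) ^ N = 1 := by
    rw [conj_pow, hN, mul_comm (orderOf u), pow_mul, pow_orderOf_eq_one, one_pow]
    group
  have h4 : (u⁻¹ : G) ^ N = 1 := by
    rw [inv_pow, hN, pow_mul, pow_orderOf_eq_one, one_pow, inv_one]
  rw [h3, h4, one_mul] at h1
  have h5 : κm = 1 := Subtype.ext h1.symm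
  rw [h5, map_one] at h2
  obtain ⟨a, ha⟩ := hK κ⁻¹
  have h6 : χ κ⁻¹ ^ (p ^ a) = 1 := by rw [← map_pow, ha, map_one]
  have hNp : ¬ p ∣ N := by
    rw [hN, hp.dvd_mul]
    rintro (h | h)
    · exact hur h
    · exact hg h
  have hcop : Nat.Coprime N (p ^ a) :=
    ((Nat.Prime.coprime_iff_not_dvd hp).2 hNp).symm.pow_right _
  have h7 : orderOf (χ κ⁻¹) = 1 := Nat.eq_one_of_dvd_coprimes hcop
    (orderOf_dvd_of_pow_eq_one h2.symm) (orderOf_dvd_of_pow_eq_one h6)
  rw [orderOf_eq_one_iff, map_inv, inv_eq_one] at h7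
  exact h7

include hu in
/-- The number of the `x` with `u x g x⁻¹ ∈ K` as a combination of irreducible characters. -/
theorem count_mem (p : ℕ) [Fact p.Prime] (hK : IsPGroup p K) (hur : ¬ p ∣ orderOf u) :
    ∃ f ∈ Submodule.span ℂ (IrrChar K χ), ∀ g : G, ¬ p ∣ orderOf g →
      f g = (Nat.card {x : G // u * (x * g * x⁻¹) ∈ K} : ℂ) := by
  classical
  have : Fintype G := Fintype.ofFinite G
  have : Fintype K := Fintype.ofFinite K
  have h0 := mem_span_of_commute K χ (finrank ℂ (spE K χ)) (spE K χ) (repE K χ) le_rfl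
    (spE_vec K χ) (Tu u hu) (fun g => by
      apply LinearMap.ext
      intro f
      apply Subtype.ext
      funext x
      show (f : G → ℂ) (u * x * g) = (f : G → ℂ) (u * (x * g))
      rw [mul_assoc])
  refine ⟨(Fintype.card K : ℂ) • _, Submodule.smul_mem _ _ h0, fun g hg => ?_⟩
  rw [Pi.smul_apply, trace_Tu, smul_eq_mul, ← Finset.mul_sum, ← mul_assoc,
    mul_inv_cancel₀ (by exact_mod_cast Fintype.card_ne_zero), one_mul, Nat.card_eq_fintype_card,
    Fintype.card_subtype, Finset.card_filter, Nat.cast_sum]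
  refine Finset.sum_congr rfl fun x _ => ?_
  have h1 : ∀ κ : K, (if (κ : G) * u * x * g = x then (((χ κ)⁻¹ : ℂˣ) : ℂ) else 0) =
      if (κ : G) * u * x * g = x then 1 else 0 := by
    intro κ
    split_ifs with h
    · rw [chi_one u hu p hK hur g hg κ x h, inv_one, Units.val_one]
    · rfl
  rw [Finset.sum_congr rfl (fun κ _ => h1 κ)]
  by_cases h : u * (x * g * x⁻¹) ∈ K
  · rw [if_pos h, Finset.sum_eq_single (⟨u * (x * g * x⁻¹), h⟩⁻¹ : K)]
    · rw [if_pos]
      · simp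
      · rw [Subgroup.coe_inv]
        show (u * (x * g * x⁻¹))⁻¹ * u * x * g = x
        group
    · intro κ _ hκ
      rw [if_neg]
      intro h2
      apply hκ
      apply Subtype.ext
      rw [Subgroup.coe_inv]
      show (κ : G) = (u * (x * g * x⁻¹))⁻¹
      rw [eq_inv_iff_mul_eq_one]
      have : (κ : G) * (u * (x * g * x⁻¹)) = κ * u * x * g * x⁻¹ := by group
      rw [this, h2, mul_inv_cancel]
    · intro h; exact absurd (Finset.mem_univ _) h
  · rw [if_neg h, Nat.cast_zero]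
    apply Finset.sum_eq_zero
    intro κ _
    rw [if_neg]
    intro h2
    apply h
    have : u * (x * g * x⁻¹) = (κ : G)⁻¹ := by
      rw [eq_inv_iff_mul_eq_one, mul_eq_one_iff_eq_inv]
      have h3 : (κ : G) * (u * (x * g * x⁻¹)) = 1 := by
        have : (κ : G) * (u * (x * g * x⁻¹)) = κ * u * x * g * x⁻¹ := by group
        rw [this, h2, mul_inv_cancel]
      rw [← mul_eq_one_iff_eq_inv]
      exact mul_eq_one_comm.1 h3
    rw [this]
    exact K.inv_mem κ.2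

end Tu

/-- **Class functions.** -/
theorem class_mem (p : ℕ) [Fact p.Prime] [hKn : K.Normal] (hK : IsPGroup p K) (X : Set (K →* ℂˣ))
    (hX : ∀ u : G, ¬ p ∣ orderOf u → ∃ χ ∈ X, ∀ κ : K, χ ⟨u * κ * u⁻¹, hKn.conj_mem _ κ.2 u⟩ = χ κ)
    (F : G → ℂ) (hF : ∀ u g x : G, ¬ p ∣ orderOf u → ¬ p ∣ orderOf g → u⁻¹ * (x * g * x⁻¹) ∈ K → F u = F g) :
    ∃ f ∈ Submodule.span ℂ (⋃ χ ∈ X, IrrChar K χ), ∀ g : G, ¬ p ∣ orderOf g → f g = F g := by
  classical
  have : Fintype G := Fintype.ofFinite G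
  have h1 : ∀ u : G, ∃ f ∈ Submodule.span ℂ (⋃ χ ∈ X, IrrChar K χ), ¬ p ∣ orderOf u → ∀ g : G, ¬ p ∣ orderOf g →
      f g = (Nat.card {x : G // u⁻¹ * (x * g * x⁻¹) ∈ K} : ℂ) := by
    intro u
    by_cases hu : p ∣ orderOf u
    · exact ⟨0, Submodule.zero_mem _, fun h => absurd hu h⟩
    · obtain ⟨χ, hχX, hχ⟩ := hX u⁻¹ (by rwa [orderOf_inv])
      obtain ⟨f, hf1, hf2⟩ := count_mem u⁻¹ hχ p hK (by rwa [orderOf_inv])
      exact ⟨f, Submodule.span_mono (Set.subset_biUnion_of_mem hχX) hf1, fun _ => hf2⟩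
  choose f hf1 hf2 using h1
  set reg : Finset G := Finset.univ.filter fun u => ¬ p ∣ orderOf u with hreg
  set N : G → ℕ := fun w => (reg.filter fun v => v⁻¹ * w ∈ K).card with hN
  refine ⟨(Fintype.card G : ℂ)⁻¹ • ∑ u ∈ reg, (F u / N u) • f u, Submodule.smul_mem _ _
    (Submodule.sum_mem _ fun u _ => Submodule.smul_mem _ _ (hf1 u)), fun g hg => ?_⟩
  have hG : (Fintype.card G : ℂ) ≠ 0 := by exact_mod_cast Fintype.card_ne_zero
  rw [Pi.smul_apply, Finset.sum_apply, smul_eq_mul, inv_mul_eq_iff_eq_mul₀ hG]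
  have h2 : ∀ u ∈ reg, ((F u / N u) • f u) g = ∑ x : G, if u⁻¹ * (x * g * x⁻¹) ∈ K then F u / N u else 0 := by
    intro u hu
    rw [Pi.smul_apply, hf2 u (by rw [hreg, Finset.mem_filter] at hu; exact hu.2) g hg, smul_eq_mul,
      Nat.card_eq_fintype_card, Fintype.card_subtype, ← Finset.sum_filter, Finset.sum_const, nsmul_eq_mul, mul_comm]
  rw [Finset.sum_congr rfl h2, Finset.sum_comm]
  have h3 : ∀ x : G, (∑ u ∈ reg, if u⁻¹ * (x * g * x⁻¹) ∈ K then F u / N u else 0) = F g := by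
    intro x
    set w := x * g * x⁻¹ with hw
    have hwr : ¬ p ∣ orderOf w := by
      have := orderOf_injective (MulAut.conj x).toMonoidHom (MulEquiv.injective _) g
      have h4 : orderOf w = orderOf g := by rw [← this]; rfl
      rwa [h4]
    have h5 : ∀ u ∈ reg, (if u⁻¹ * w ∈ K then F u / N u else 0) = if u⁻¹ * w ∈ K then F g / N w else 0 := by
      intro u hu
      split_ifs with h
      · rw [hF u g x (by rw [hreg, Finset.mem_filter] at hu; exact hu.2) hg h]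
        congr 2
        rw [hN]
        simp only
        congr 1
        apply Finset.filter_congr
        intro v _
        have h6 : v⁻¹ * w = v⁻¹ * u * (u⁻¹ * w) := by group
        rw [h6]
        exact ⟨fun h7 => K.mul_mem h7 h, fun h7 => (K.mul_mem_cancel_right h).1 h7⟩
      · rfl
    rw [Finset.sum_congr rfl h5, ← Finset.sum_filter, Finset.sum_const, nsmul_eq_mul]
    have h7 : (N w : ℂ) ≠ 0 := by
      have : w ∈ reg.filter fun v => v⁻¹ * w ∈ K := by
        rw [Finset.mem_filter, hreg, Finset.mem_filter]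
        exact ⟨⟨Finset.mem_univ _, hwr⟩, by rw [inv_mul_cancel]; exact K.one_mem⟩
      have := Finset.card_pos.2 ⟨w, this⟩
      exact_mod_cast this.ne'
    rw [mul_div_cancel₀]
    exact h7
  rw [Finset.sum_congr rfl (fun x _ => h3 x), Finset.sum_const, Finset.card_univ, nsmul_eq_mul]

end Pool.Agent.H498.BT
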