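import Mathlib

/-!
# Decomposition of a matrix of finite order prime to the characteristic
-/

set_option autoImplicit false

namespace Pool.Agent.H498.BT

open Polynomial

variable {k : Type} [Field k]

lemma exists_monic_quot (I : Ideal k[X]) (hI : I.IsMaximal) : ∃ p : k[X], p.Monic ∧ Irreducible p ∧
    I = Ideal.span {p} := by
  classical
  have hne : I ≠ ⊥ := by
    rintro rfl
    have h1 : IsField k[X] := by
      have := (Ideal.bot_quotient_isMaximal_iff (⊥ : Ideal k[X])).1
      exact Ring.isField_iff_isSimpleOrder_ideal.2 (by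
        have h2 : (⊥ : Ideal k[X]).IsMaximal := hI
        exact ⟨fun a => by
          by_cases ha : a = ⊥
          · exact Or.inl ha
          · exact Or.inr (h2.out.2 a (bot_lt_iff_ne_bot.2 ha))⟩)
    exact Polynomial.not_isField k h1
  obtain ⟨g, hg⟩ := (inferInstance : IsPrincipalIdealRing k[X]).principal I
  have hg0 : g ≠ 0 := by
    rintro rfl
    apply hne
    rw [hg]
    simp
  have hI2 : I = Ideal.span {g} := hg
  refine ⟨normalize g, monic_normalize hg0, ?_, ?_⟩
  · have h1 : Prime g := by
      rw [← Ideal.span_singleton_prime hg0, ← hI2]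
      exact hI.isPrime
    exact ((normalize_associated g).symm.irreducible h1.irreducible)
  · rw [hI2]
    exact Ideal.span_singleton_eq_span_singleton.2 (normalize_associated g).symm

/-- the module structure of `k[X] / p` over `k[X]` -/
@[reducible] noncomputable def modX (p : k[X]) : Module k[X] (AdjoinRoot p) :=
  Module.compHom _ (AdjoinRoot.mk p)

/-- A matrix of finite order prime to the characteristic is the multiplication by the root in a product of
field extensions. -/
theorem decomp {n : ℕ} (s : Matrix (Fin n) (Fin n) k) (N : ℕ) (hN : (N : k) ≠ 0) (hs : s ^ N = 1) :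
    ∃ (r : ℕ) (p : Fin r → k[X]) (φ : (Fin n → k) ≃ₗ[k] (Π j, AdjoinRoot (p j))),
      (∀ j, (p j).Monic) ∧ (∀ j, Irreducible (p j)) ∧
      ∀ v j, φ (s.mulVec v) j = AdjoinRoot.root (p j) * φ v j := by
  classical
  set f : Module.End k (Fin n → k) := Matrix.toLin' s with hf
  have hfN : f ^ N = 1 := by
    rw [hf, ← Matrix.toLin'_pow, hs, Matrix.toLin'_one]; rfl
  have hss : f.IsSemisimple := by
    have hsep : (X ^ N - 1 : k[X]).Separable := by
      have := (separable_X_pow_sub_C (1 : k) (n := N) hN one_ne_zero)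
      simpa using this
    refine Module.End.isSemisimple_of_squarefree_aeval_eq_zero hsep.squarefree ?_
    simp [hfN]
  have hss' : IsSemisimpleModule k[X] (Module.AEval' f) := hss
  obtain ⟨r, S, e, hS⟩ := IsSemisimpleModule.exists_linearEquiv_fin_dfinsupp k[X] (Module.AEval' f)
  letI inst : ∀ p : k[X], Module k[X] (AdjoinRoot p) := modX
  have hsm : ∀ (p g : k[X]) (y : AdjoinRoot p), g • y = AdjoinRoot.mk p g * y := fun p g y => rfl
  have hst : ∀ p : k[X], IsScalarTower k k[X] (AdjoinRoot p) := by
    intro p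
    refine IsScalarTower.of_algebraMap_smul fun r x => ?_
    rw [hsm, Polynomial.algebraMap_eq, AdjoinRoot.mk_C, ← AdjoinRoot.algebraMap_eq, ← Algebra.smul_def]
  have h1 : ∀ i, ∃ p : k[X], p.Monic ∧ Irreducible p ∧ Nonempty (S i ≃ₗ[k[X]] (AdjoinRoot p)) := by
    intro i
    obtain ⟨I, hI, ⟨e'⟩⟩ := isSimpleModule_iff_quot_maximal.1 (hS i)
    obtain ⟨p, hp1, hp2, rfl⟩ := exists_monic_quot I hI
    let e2 : (k[X] ⧸ Ideal.span {p}) ≃ₗ[k[X]] AdjoinRoot p :=
      { toFun := fun x => x
        invFun := fun x => x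
        left_inv := fun x => rfl
        right_inv := fun x => rfl
        map_add' := fun x y => rfl
        map_smul' := by
          intro g x
          obtain ⟨q, rfl⟩ := Ideal.Quotient.mk_surjective x
          rfl }
    exact ⟨p, hp1, hp2, ⟨e'.trans e2⟩⟩
  choose p hp1 hp2 hp3 using h1
  let ψ : Module.AEval' f ≃ₗ[k[X]] (Π j, AdjoinRoot (p j)) :=
    (e.trans (DFinsupp.linearEquivFunOnFintype)).trans
      (LinearEquiv.piCongrRight fun i => (hp3 i).some)
  refine ⟨r, p, (Module.AEval'.of f).trans (ψ.restrictScalars k), hp1, hp2, ?_⟩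
  intro v j
  have h2 : Module.AEval'.of f (s.mulVec v) = (X : k[X]) • Module.AEval'.of f v := by
    rw [Module.AEval'.X_smul_of]
    rfl
  have h3 : ψ (Module.AEval'.of f (s.mulVec v)) j = (X : k[X]) • (ψ (Module.AEval'.of f v) j) := by
    rw [h2, map_smul]; rfl
  have h4 : ∀ y : AdjoinRoot (p j), (X : k[X]) • y = AdjoinRoot.root (p j) * y := by
    intro y
    rw [hsm, AdjoinRoot.mk_X]
  rw [h4] at h3
  exact h3

end Pool.Agent.H498.BT
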