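import Mathlib

/-!
# The traces of pairwise non-isomorphic irreducible representations are linearly independent
-/

set_option autoImplicit false

namespace Pool.Agent.H498.BT

open Module

variable {F G : Type} [Field F] [IsAlgClosed F] [Group G] {W : Type} [Fintype W] [DecidableEq W]
  (V : W → Type) [∀ w, AddCommGroup (V w)] [∀ w, Module F (V w)] [∀ w, FiniteDimensional F (V w)]
  (ρ : ∀ w, Representation F G (V w)) (hirr : ∀ w, (ρ w).IsIrreducible)
  (hiso : ∀ w w', w ≠ w' → ¬ ∃ e : V w ≃ₗ[F] V w', ∀ g v, e (ρ w g v) = ρ w' g (e v))

include hirr hiso in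
/-- The group algebra acts through all families of endomorphisms. -/
theorem density (φ : ∀ w, V w →ₗ[F] V w) :
    ∃ r : MonoidAlgebra F G, ∀ w, (ρ w).asAlgebraHom r = φ w := by
  classical
  let A := MonoidAlgebra F G
  letI inst : ∀ w, Module A (V w) := fun w => Module.compHom (V w) (ρ w).asAlgebraHom.toRingHom
  have hsmul : ∀ w (r : A) (v : V w), r • v = (ρ w).asAlgebraHom r v := fun w r v => rfl
  have htower : ∀ w, IsScalarTower F A (V w) := by
    intro w
    refine IsScalarTower.of_algebraMap_smul fun c v => ?_
    rw [hsmul, AlgHom.commutes]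
    rfl
  have hsimple : ∀ w, IsSimpleModule A (V w) := by
    intro w
    have := hirr w
    have h1 : Nontrivial (V w) := by
      by_contra hcon
      rw [not_nontrivial_iff_subsingleton] at hcon
      have h2 : (⊥ : Subrepresentation (ρ w)) = ⊤ := by
        apply Subrepresentation.toSubmodule_injective
        exact Subsingleton.elim _ _
      exact bot_ne_top h2
    rw [isSimpleModule_iff_toSpanSingleton_surjective]
    refine ⟨h1, fun m hm y => ?_⟩
    -- the submodule generated
    let U : Subrepresentation (ρ w) :=
      { toSubmodule := (LinearMap.range (LinearMap.toSpanSingleton A (V w) m)).restrictScalars F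
        apply_mem_toSubmodule := by
          rintro g v ⟨r, rfl⟩
          refine ⟨MonoidAlgebra.single g 1 * r, ?_⟩
          rw [LinearMap.toSpanSingleton_apply, mul_smul, hsmul, Representation.asAlgebraHom_single, one_smul]
          rfl }
    have hU : U = ⊤ := by
      rcases (hirr w).eq_bot_or_eq_top U with h | h
      · exfalso
        apply hm
        have h2 : m ∈ U.toSubmodule := ⟨1, by rw [LinearMap.toSpanSingleton_apply, one_smul]⟩
        rw [h] at h2
        exact (Submodule.mem_bot F).1 h2
      · exact h
    have h3 : y ∈ U.toSubmodule := by rw [hU]; trivial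
    exact h3
  -- the sum
  let f : End (End A (Π w, V w)) (Π w, V w) :=
    { toFun := fun v w => φ w (v w)
      map_add' := fun x y => by funext w; exact map_add _ _ _
      map_smul' := by
        intro c x
        -- endomorphisms are diagonal
        have key : ∀ w, ∃ a : F, ∀ x : Π w, V w, c x w = a • x w := by
          intro w
          have hoff : ∀ w', w' ≠ w → ∀ y : V w', c (Pi.single w' y) w = 0 := by
            intro w' hw' y
            let ψ : V w' →ₗ[A] V w := (LinearMap.proj w) ∘ₗ c ∘ₗ (LinearMap.single A V w')
            have h1 := LinearMap.bijective_or_eq_zero ψ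
            rcases h1 with h1 | h1
            · exfalso
              apply hiso w' w hw'
              refine ⟨(LinearEquiv.ofBijective ψ h1).restrictScalars F, fun g v => ?_⟩
              show ψ (ρ w' g v) = ρ w g (ψ v)
              have h2 : ρ w' g v = (MonoidAlgebra.single g (1 : F) : A) • v := by
                rw [hsmul, Representation.asAlgebraHom_single, one_smul]
              rw [h2, map_smul, hsmul, Representation.asAlgebraHom_single, one_smul]
            · have h2 := LinearMap.congr_fun h1 y
              exact h2
          obtain ⟨a, ha⟩ := (IsSimpleModule.algebraMap_end_bijective_of_isAlgClosed F (A := A) (V := V w)).2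
            ((LinearMap.proj w) ∘ₗ c ∘ₗ (LinearMap.single A V w))
          refine ⟨a, fun x => ?_⟩
          have h1 : x = ∑ w', Pi.single w' (x w') := (Finset.univ_sum_single x).symm
          conv_lhs => rw [h1]
          rw [map_sum, Finset.sum_apply, Finset.sum_eq_single w]
          · have h2 := LinearMap.congr_fun ha (x w)
            exact h2.symm
          · intro w' _ hw'
            exact hoff w' hw' _
          · intro h; exact absurd (Finset.mem_univ w) h
        funext w
        obtain ⟨a, ha⟩ := key w
        show φ w (c x w) = c (fun w => φ w (x w)) w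
        rw [ha, ha, map_smul] }
  let s : Finset (Π w, V w) := Finset.univ.biUnion fun w => Finset.univ.image fun i => Pi.single w (finBasis F (V w) i)
  obtain ⟨r, hr⟩ := jacobson_density f s
  refine ⟨r, fun w => ?_⟩
  apply (finBasis F (V w)).ext
  intro i
  have h1 := hr (Pi.single w (finBasis F (V w) i)) (by
    simp only [s, Finset.mem_biUnion, Finset.mem_univ, true_and, Finset.mem_image]
    exact ⟨w, i, rfl⟩)
  have h2 := congrFun h1 w
  have h3 : φ w ((Pi.single w (finBasis F (V w) i) : Π w, V w) w) =
    r • ((Pi.single w (finBasis F (V w) i) : Π w, V w) w) := h2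
  rw [Pi.single_eq_same] at h3
  exact h3.symm

include hirr hiso in
theorem indep_trace : LinearIndependent F (fun w (g : G) => LinearMap.trace F (V w) (ρ w g)) := by
  classical
  rw [Fintype.linearIndependent_iff]
  intro a ha w₀
  have h1 : ∀ r : MonoidAlgebra F G, ∑ w, a w * LinearMap.trace F (V w) ((ρ w).asAlgebraHom r) = 0 := by
    intro r
    induction r using MonoidAlgebra.induction_linear with
    | zero => simp
    | add x y hx hy =>
      simp only [map_add, mul_add, Finset.sum_add_distrib, hx, hy, add_zero]
    | single g c =>
      have h2 := congrFun ha g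
      rw [Finset.sum_apply, Pi.zero_apply] at h2
      simp only [Pi.smul_apply, smul_eq_mul] at h2
      simp only [Representation.asAlgebraHom_single, map_smul, smul_eq_mul]
      calc ∑ w, a w * (c * LinearMap.trace F (V w) (ρ w g)) = c * ∑ w, a w * LinearMap.trace F (V w) (ρ w g) := by
            rw [Finset.mul_sum]
            exact Finset.sum_congr rfl fun w _ => by ring
        _ = 0 := by rw [h2, mul_zero]
  have hnt : Nontrivial (V w₀) := by
    have := hirr w₀
    by_contra hcon
    rw [not_nontrivial_iff_subsingleton] at hcon
    have h2 : (⊥ : Subrepresentation (ρ w₀)) = ⊤ := by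
      apply Subrepresentation.toSubmodule_injective
      exact Subsingleton.elim _ _
    exact bot_ne_top h2
  have hpos : 0 < finrank F (V w₀) := finrank_pos
  let b := finBasis F (V w₀)
  let i₀ : Fin (finrank F (V w₀)) := ⟨0, hpos⟩
  let E : V w₀ →ₗ[F] V w₀ := (LinearMap.toSpanSingleton F (V w₀) (b i₀)) ∘ₗ (b.coord i₀)
  have hE : LinearMap.trace F (V w₀) E = 1 := by
    rw [LinearMap.trace_comp_comm']
    have h3 : (b.coord i₀) ∘ₗ (LinearMap.toSpanSingleton F (V w₀) (b i₀)) = LinearMap.id := by
      apply LinearMap.ext_ring
      simp
    rw [h3, LinearMap.trace_id, finrank_self, Nat.cast_one]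
  obtain ⟨r, hr⟩ := density V ρ hirr hiso (fun w => if h : w = w₀ then
    (LinearEquiv.conj (LinearEquiv.cast (M := V) h.symm : V w₀ ≃ₗ[F] V w)) E else 0)
  have h4 := h1 r
  rw [Finset.sum_eq_single w₀] at h4
  · rw [hr, dif_pos rfl] at h4
    have h5 : LinearMap.trace F (V w₀) ((LinearEquiv.conj (LinearEquiv.cast (M := V) (rfl : w₀ = w₀) : V w₀ ≃ₗ[F] V w₀)) E) = 1 := by
      rw [LinearMap.trace_conj', hE]
    rw [h5, mul_one] at h4
    exact h4
  · intro w _ hw
    rw [hr, dif_neg hw, map_zero, mul_zero]
  · intro h; exact absurd (Finset.mem_univ w₀) h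

end Pool.Agent.H498.BT
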