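import Pool.Agent.H498.BT.Gl

/-!
# The rings `O / ϖ ^ (2 m)`
-/

set_option autoImplicit false

namespace Pool.Agent.H498.BT

variable {O k : Type} [CommRing O] [IsDomain O] [IsDiscreteValuationRing O] [Field k] {ϖ : O}
  (hϖ : Irreducible ϖ) {m : ℕ}

lemma mk_zero_iff (N : ℕ) (x : O) : (Ideal.Quotient.mk (Ideal.span {ϖ ^ N}) x = 0) ↔ ϖ ^ N ∣ x := by
  rw [Ideal.Quotient.eq_zero_iff_mem, Ideal.mem_span_singleton]

include hϖ in
lemma selfDual : SelfDual (Ideal.Quotient.mk (Ideal.span {ϖ ^ (2 * m)}) (ϖ ^ m)) where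
  ann := by
    intro x
    obtain ⟨x, rfl⟩ := Ideal.Quotient.mk_surjective x
    constructor
    · intro h
      rw [← map_mul, mk_zero_iff, two_mul, pow_add] at h
      obtain ⟨y, rfl⟩ := (mul_dvd_mul_iff_left (pow_ne_zero m hϖ.ne_zero)).1 h
      exact ⟨Ideal.Quotient.mk _ y, by rw [map_mul]⟩
    · rintro ⟨y, hy⟩
      rw [hy, ← mul_assoc, ← map_mul, ← pow_add, ← two_mul]
      have : Ideal.Quotient.mk (Ideal.span {ϖ ^ (2 * m)}) (ϖ ^ (2 * m)) = 0 := (mk_zero_iff _ _).2 dvd_rfl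
      rw [this, zero_mul]

include hϖ in
lemma e_ne (hm : 1 ≤ m) : Ideal.Quotient.mk (Ideal.span {ϖ ^ (2 * m)}) (ϖ ^ m) ≠ 0 := by
  rw [Ne, mk_zero_iff]
  intro h
  have := (pow_dvd_pow_iff hϖ.ne_zero hϖ.not_isUnit).1 h
  omega

variable (π : (O ⧸ Ideal.span {ϖ ^ (2 * m)}) →+* k) (hπ : Function.Surjective π)

include hϖ in
lemma dvd_of_ker (x : O) (hx : π (Ideal.Quotient.mk _ x) = 0) : ϖ ∣ x := by
  by_contra hcon
  have hmax := hϖ.maximalIdeal_eq
  have h1 : IsUnit x := by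
    by_contra h
    apply hcon
    rw [← Ideal.mem_span_singleton, ← hmax]
    exact (IsLocalRing.mem_maximalIdeal x).2 h
  exact ((h1.map _).map π).ne_zero hx

include hπ hϖ in
lemma nilSurj : NilSurj π where
  surj := hπ
  nil := by
    intro a ha
    obtain ⟨x, rfl⟩ := Ideal.Quotient.mk_surjective a
    obtain ⟨y, rfl⟩ := dvd_of_ker hϖ π x ha
    refine ⟨2 * m, ?_⟩
    rw [← map_pow, mk_zero_iff, mul_pow]
    exact dvd_mul_right _ _

include hπ hϖ in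
lemma ker_pi (x : O) (hx : ϖ ∣ x) (hm : 1 ≤ m) : π (Ideal.Quotient.mk _ x) = 0 := by
  obtain ⟨y, rfl⟩ := hx
  have h1 : π (Ideal.Quotient.mk _ ϖ) ^ (2 * m) = 0 := by
    rw [← map_pow, ← map_pow, (mk_zero_iff _ _).2 dvd_rfl, map_zero]
  have h2 := pow_eq_zero_iff (show 2 * m ≠ 0 by omega) |>.1 h1
  rw [map_mul, map_mul, h2, zero_mul]

include hπ hϖ in
/-- the residue field -/
lemma residue_equiv (hm : 1 ≤ m) : Nonempty ((O ⧸ Ideal.span {ϖ}) ≃+* k) := by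
  set f : O →+* k := π.comp (Ideal.Quotient.mk _) with hf
  have h1 : RingHom.ker f = Ideal.span {ϖ} := by
    ext x
    rw [RingHom.mem_ker, Ideal.mem_span_singleton]
    exact ⟨fun h => dvd_of_ker hϖ π x h, fun h => ker_pi hϖ π hπ x h hm⟩
  have h2 : Function.Surjective f := hπ.comp Ideal.Quotient.mk_surjective
  exact ⟨(Ideal.quotEquivOfEq h1.symm).trans (RingHom.quotientKerEquivOfSurjective h2)⟩

include hπ hϖ in
lemma finite_quot [Finite k] (hm : 1 ≤ m) (N : ℕ) : Finite (O ⧸ Ideal.span {ϖ ^ N}) := by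
  obtain ⟨e⟩ := residue_equiv hϖ π hπ hm
  have : Finite (O ⧸ Ideal.span {ϖ}) := Finite.of_equiv k e.symm.toEquiv
  have h1 := Ideal.finite_quotient_pow (I := Ideal.span {ϖ}) ((Submodule.fg_span (Set.finite_singleton ϖ))) N
  rwa [Ideal.span_singleton_pow] at h1

include hπ hϖ in
lemma card_quot [Finite k] (hm : 1 ≤ m) (N : ℕ) : Nat.card (O ⧸ Ideal.span {ϖ ^ N}) = Nat.card k ^ N := by
  obtain ⟨e⟩ := residue_equiv hϖ π hπ hm
  have h1 : (Ideal.span {ϖ}).IsPrime := (Ideal.span_singleton_prime hϖ.ne_zero).2 hϖ.prime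
  have h2 := cardQuot_pow_of_prime (P := Ideal.span {ϖ}) (i := N) (by
    rw [Ne, Ideal.span_singleton_eq_bot]; exact hϖ.ne_zero)
  rw [Ideal.span_singleton_pow] at h2
  rw [Submodule.cardQuot_apply, Submodule.cardQuot_apply] at h2
  rw [h2, Nat.card_congr e.toEquiv]

include hπ hϖ in
/-- Elements of the maximal ideal which are distinct modulo `ϖ ^ m`. -/
lemma exists_c [Finite k] (hm : 1 ≤ m) (n : ℕ) (hn : n ≤ Nat.card k ^ (m - 1)) :
    ∃ c : Fin n → (O ⧸ Ideal.span {ϖ ^ (2 * m)}), (∀ j, π (c j) = 0) ∧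
      ∀ i j, i ≠ j → Ideal.Quotient.mk (Ideal.span {ϖ ^ (2 * m)}) (ϖ ^ m) * (c i - c j) ≠ 0 := by
  have := finite_quot hϖ π hπ hm (m - 1)
  have h1 := card_quot hϖ π hπ hm (m - 1)
  have : Fintype (O ⧸ Ideal.span {ϖ ^ (m - 1)}) := Fintype.ofFinite _
  obtain ⟨φ⟩ : Nonempty (Fin n ↪ (O ⧸ Ideal.span {ϖ ^ (m - 1)})) := by
    apply Function.Embedding.nonempty_of_card_le
    rw [Fintype.card_fin, ← Nat.card_eq_fintype_card, h1]
    exact hn
  choose d hd using fun j => Ideal.Quotient.mk_surjective (φ j)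
  refine ⟨fun j => Ideal.Quotient.mk _ (ϖ * d j), fun j => ker_pi hϖ π hπ _ (dvd_mul_right _ _) hm, ?_⟩
  intro i j hij h
  rw [← map_sub, ← map_mul, mk_zero_iff] at h
  have h2 : ϖ ^ m * (ϖ * d i - ϖ * d j) = ϖ ^ (m + 1) * (d i - d j) := by ring
  have h3 : ϖ ^ (2 * m) = ϖ ^ (m + 1) * ϖ ^ (m - 1) := by
    rw [← pow_add]
    congr 1
    omega
  rw [h2, h3, mul_dvd_mul_iff_left (pow_ne_zero _ hϖ.ne_zero), ← mk_zero_iff, map_sub, sub_eq_zero, hd, hd] at h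
  exact hij (φ.injective h)

end Pool.Agent.H498.BT
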