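import Pool.Agent.H498.BT.Tor

/-!
# Existence of toral matrices
-/

set_option autoImplicit false

namespace Pool.Agent.H498.BT

open Polynomial Matrix

variable {R k : Type} [CommRing R] [Field k] {π : R →+* k}

section T

variable {r : ℕ} {P : Fin r → R[X]} {q : Fin r → k[X]} (hP : ∀ j, (P j).Monic)
  (hPp : ∀ j, (P j).map π = q j)

include hP hPp in
/-- The matrix of `(X + c_j)` is toral. -/
theorem toral_bet [Finite k] (p : ℕ) [Fact p.Prime] [CharP k p] (hπ : NilSurj π)
    (hq : ∀ j, (q j).Monic) (hqi : ∀ j, Irreducible (q j))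
    (hpP : ∀ i j, q i = q j → P i = P j) (e : R) (he : e ≠ 0) (c : Fin r → R) (hc0 : ∀ j, π (c j) = 0)
    (hcd : ∀ i j, i ≠ j → e * (c i - c j) ≠ 0) {n : ℕ}
    (b : Module.Basis (Fin n) R (Π j, AdjoinRoot (P j)))
    (hb : ∀ z, redP hPp z = 0 → ∀ i, π (b.repr z i) = 0) :
    Toral π p e (Algebra.leftMulMatrix b (bet P c)) := by
  classical
  intro x hx hdvd
  have hfact : ∀ j, Fact (Irreducible (q j)) := fun j => ⟨hqi j⟩
  have hsep : ∀ j, (q j).Separable := fun j => PerfectField.separable_of_irreducible (hqi j)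
  set B := Algebra.leftMulMatrix b (bet P c) with hB
  have hlin : ∀ M : Matrix (Fin n) (Fin n) R, ∀ z, b.repr (Matrix.toLin b b M z) = M *ᵥ (b.repr z) := by
    intro M z
    exact Matrix.repr_toLin b b M z
  have hBl : ∀ z, b.repr (bet P c * z) = B *ᵥ (b.repr z) := by
    intro z
    exact (Algebra.leftMulMatrix_mulVec_repr b (bet P c) z).symm
  have inj : ∀ z z' : (Π j, AdjoinRoot (P j)), (b.repr z : Fin n → R) = b.repr z' → z = z' := by
    intro z z' h
    exact b.repr.injective (DFunLike.coe_injective h)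
  set T := Matrix.toLin b b (x : Matrix (Fin n) (Fin n) R) with hT
  have hTc : ∀ z, e • T (bet P c * z) = e • (bet P c * T z) := by
    intro z
    apply inj
    rw [map_smul, map_smul, Finsupp.coe_smul, Finsupp.coe_smul, hBl, hT, hlin, hlin, hBl,
      Matrix.mulVec_mulVec, Matrix.mulVec_mulVec, ← Matrix.smul_mulVec, ← Matrix.smul_mulVec, hx]
  have hmul := red_mul hP hPp c e T hTc hπ hqi hsep hpP hc0 hcd he
  set a := redP hPp (T 1) with ha
  have hpow : ∀ (m : ℕ) z, redP hPp ((Matrix.toLin b b ((x ^ m : GL (Fin n) R) : Matrix (Fin n) (Fin n) R)) z) =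
      a ^ m * redP hPp z := by
    intro m
    induction m with
    | zero => intro z; simp
    | succ m ih =>
      intro z
      have h1 : (Matrix.toLin b b ((x ^ (m + 1) : GL (Fin n) R) : Matrix (Fin n) (Fin n) R)) z =
          (Matrix.toLin b b ((x ^ m : GL (Fin n) R) : Matrix (Fin n) (Fin n) R)) (T z) := by
        apply inj
        rw [hlin, hlin, hT, hlin, Matrix.mulVec_mulVec, ← Units.val_mul, ← pow_succ]
      rw [h1, ih, hmul, pow_succ, mul_assoc]
  have hunit : ∃ y, a * y = 1 := by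
    refine ⟨redP hPp (Matrix.toLin b b ((x⁻¹ : GL (Fin n) R) : Matrix (Fin n) (Fin n) R) 1), ?_⟩
    rw [← hmul]
    have h1 : T (Matrix.toLin b b ((x⁻¹ : GL (Fin n) R) : Matrix (Fin n) (Fin n) R) 1) = 1 := by
      apply inj
      rw [hT, hlin, hlin, Matrix.mulVec_mulVec, ← Units.val_mul, mul_inv_cancel, Units.val_one, Matrix.one_mulVec]
    rw [h1, map_one]
  obtain ⟨y, hy⟩ := hunit
  have hfin : ∀ j, Finite (AdjoinRoot (q j)) := by
    intro j
    have := (hq j).finite_adjoinRoot
    exact Module.finite_of_finite k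
  set M : ℕ := ∏ j, (Nat.card (AdjoinRoot (q j)) - 1) with hM
  have haM : a ^ M = 1 := by
    funext j
    have := Fintype.ofFinite (AdjoinRoot (q j))
    have hne : a j ≠ 0 := by
      intro h0
      have := congrFun hy j
      rw [Pi.mul_apply, h0, zero_mul] at this
      exact zero_ne_one this
    have h1 : a j ^ (Nat.card (AdjoinRoot (q j)) - 1) = 1 := by
      rw [Nat.card_eq_fintype_card]
      exact FiniteField.pow_card_sub_one_eq_one _ hne
    rw [Pi.pow_apply, hM, ← Finset.mul_prod_erase Finset.univ _ (Finset.mem_univ j), pow_mul, h1, one_pow]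
    rfl
  have hpM : ¬ p ∣ M := by
    rw [hM]
    intro h
    obtain ⟨j, _, hj⟩ := (Prime.dvd_finsetProd_iff (Nat.Prime.prime Fact.out) _).1 h
    have := Fintype.ofFinite (AdjoinRoot (q j))
    have h1 : CharP (AdjoinRoot (q j)) p := charP_of_injective_algebraMap (algebraMap k (AdjoinRoot (q j))).injective p
    have h2 : p ∣ Nat.card (AdjoinRoot (q j)) := by
      rw [← CharP.cast_eq_zero_iff (AdjoinRoot (q j)) p, Nat.card_eq_fintype_card]
      exact FiniteField.cast_card_eq_zero _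
    have h3 : 0 < Nat.card (AdjoinRoot (q j)) := Nat.card_pos
    have h4 : p ∣ 1 := by
      have := (Nat.dvd_sub h2 hj)
      rwa [Nat.sub_sub_self h3] at this
    exact (Fact.out : p.Prime).one_lt.ne' (Nat.dvd_one.1 h4)
  have h1 : GeneralLinearGroup.map π x ^ M = 1 := by
    rw [← map_pow]
    apply Units.ext
    ext i j
    have h2 : redP hPp ((Matrix.toLin b b ((x ^ M : GL (Fin n) R) : Matrix (Fin n) (Fin n) R)) (b j) - b j) = 0 := by
      rw [map_sub, hpow, haM, one_mul, sub_self]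
    have h3 := hb _ h2 i
    rw [map_sub, Finsupp.sub_apply, map_sub, hlin, b.repr_self, sub_eq_zero] at h3
    have h4 : (((x ^ M : GL (Fin n) R) : Matrix (Fin n) (Fin n) R) *ᵥ ⇑(Finsupp.single j (1 : R))) i =
        ((x ^ M : GL (Fin n) R) : Matrix (Fin n) (Fin n) R) i j := by
      rw [Finsupp.single_eq_pi_single, Matrix.mulVec_single_one]
      rfl
    rw [h4] at h3
    rw [GeneralLinearGroup.map_apply, h3, Finsupp.single_apply, Units.val_one, Matrix.one_apply]
    by_cases hij : i = j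
    · simp [hij]
    · simp [hij, Ne.symm hij]
  exact hpM (hdvd.trans (orderOf_dvd_of_pow_eq_one h1))

end T

lemma toral_conj {p : ℕ} {e : R} {n : ℕ} (g : GL (Fin n) R) (β : Matrix (Fin n) (Fin n) R) (h : Toral π p e β) :
    Toral π p e (((g⁻¹ : GL (Fin n) R) : Matrix (Fin n) (Fin n) R) * β * (g : Matrix (Fin n) (Fin n) R)) := by
  intro x hx hd
  have h1 : e • (((g * x * g⁻¹ : GL (Fin n) R) : Matrix (Fin n) (Fin n) R) * β) =
      e • (β * ((g * x * g⁻¹ : GL (Fin n) R) : Matrix (Fin n) (Fin n) R)) := by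
    have h2 := congrArg (fun M => (g : Matrix (Fin n) (Fin n) R) * M * ((g⁻¹ : GL (Fin n) R) : Matrix (Fin n) (Fin n) R)) hx
    simp only [mul_smul_comm, smul_mul_assoc] at h2
    rw [Units.val_mul, Units.val_mul]
    have e1 : (g : Matrix (Fin n) (Fin n) R) * ((x : Matrix (Fin n) (Fin n) R) *
        (((g⁻¹ : GL (Fin n) R) : Matrix (Fin n) (Fin n) R) * β * (g : Matrix (Fin n) (Fin n) R))) *
        ((g⁻¹ : GL (Fin n) R) : Matrix (Fin n) (Fin n) R) =
        (g : Matrix (Fin n) (Fin n) R) * (x : Matrix (Fin n) (Fin n) R) *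
          ((g⁻¹ : GL (Fin n) R) : Matrix (Fin n) (Fin n) R) * β *
          ((g : Matrix (Fin n) (Fin n) R) * ((g⁻¹ : GL (Fin n) R) : Matrix (Fin n) (Fin n) R)) := by
      simp only [mul_assoc]
    have e2 : (g : Matrix (Fin n) (Fin n) R) * (
        (((g⁻¹ : GL (Fin n) R) : Matrix (Fin n) (Fin n) R) * β * (g : Matrix (Fin n) (Fin n) R)) *
          (x : Matrix (Fin n) (Fin n) R)) *
        ((g⁻¹ : GL (Fin n) R) : Matrix (Fin n) (Fin n) R) =
        ((g : Matrix (Fin n) (Fin n) R) * ((g⁻¹ : GL (Fin n) R) : Matrix (Fin n) (Fin n) R)) * (β * (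
        (g : Matrix (Fin n) (Fin n) R) * (x : Matrix (Fin n) (Fin n) R) *
          ((g⁻¹ : GL (Fin n) R) : Matrix (Fin n) (Fin n) R))) := by
      simp only [mul_assoc]
    have e3 : (g : Matrix (Fin n) (Fin n) R) * ((g⁻¹ : GL (Fin n) R) : Matrix (Fin n) (Fin n) R) = 1 := by
      rw [← Units.val_mul, mul_inv_cancel, Units.val_one]
    rw [e1, e2, e3, mul_one, one_mul] at h2
    exact h2
  apply h _ h1
  have h3 : orderOf (GeneralLinearGroup.map π (g * x * g⁻¹)) = orderOf (GeneralLinearGroup.map π x) := by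
    rw [map_mul, map_mul, map_inv]
    have := orderOf_injective (MulAut.conj (GeneralLinearGroup.map π g)).toMonoidHom
      (MulEquiv.injective _) (GeneralLinearGroup.map π x)
    rw [← this]
    rfl
  rwa [h3]

/-- **Every element of `GL_n(R)` of order prime to `p` commutes with a toral matrix.** -/
theorem exists_toral [Finite R] [Finite k] (p : ℕ) [Fact p.Prime] [CharP k p] (hπ : NilSurj π) {n : ℕ}
    (e : R) (he : e ≠ 0) (c : Fin n → R) (hc0 : ∀ j, π (c j) = 0)
    (hcd : ∀ i j, i ≠ j → e * (c i - c j) ≠ 0) (u : GL (Fin n) R) (hu : ¬ p ∣ orderOf u) :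
    ∃ β : Matrix (Fin n) (Fin n) R, Toral π p e β ∧
      (u : Matrix (Fin n) (Fin n) R) * β = β * (u : Matrix (Fin n) (Fin n) R) := by
  classical
  have hp : p.Prime := Fact.out
  set s : Matrix (Fin n) (Fin n) k := ((GeneralLinearGroup.map π u : GL (Fin n) k) : Matrix (Fin n) (Fin n) k) with hs
  have hN0 : ((orderOf u : ℕ) : k) ≠ 0 := by
    rw [Ne, CharP.cast_eq_zero_iff k p]; exact hu
  have hsN : s ^ orderOf u = 1 := by
    rw [hs, ← Units.val_pow_eq_pow_val, ← map_pow, pow_orderOf_eq_one, map_one, Units.val_one]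
  obtain ⟨r, q, φ, hq, hqi, hφ⟩ := decomp s (orderOf u) hN0 hsN
  -- lifts of the polynomials
  have hlift : ∀ g : k[X], ∃ G : R[X], g.Monic → (G.map π = g ∧ G.Monic) := by
    intro g
    by_cases hg : g.Monic
    · obtain ⟨G, h1, _, h3⟩ := Polynomial.lifts_and_natDegree_eq_and_monic
        ((Polynomial.mem_lifts _).2 (Polynomial.map_surjective π hπ.surj g)) hg
      exact ⟨G, fun _ => ⟨h1, h3⟩⟩
    · exact ⟨0, fun h => absurd h hg⟩
  choose Pl hPl using hlift
  set P : Fin r → R[X] := fun j => Pl (q j) with hPdef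
  have hP : ∀ j, (P j).Monic := fun j => (hPl _ (hq j)).2
  have hPp : ∀ j, (P j).map π = q j := fun j => (hPl _ (hq j)).1
  have hpP : ∀ i j, q i = q j → P i = P j := fun i j h => by rw [hPdef]; simp only [h]
  -- the basis
  have hb0 := fun z => (redP_eq_zero hP hPp z).1
  have hcard : Fintype.card (Σ j, Fin (P j).natDegree) = n := by
    have h1 := (LinearEquiv.ofBijective (psi hPp (bas hP)) (psi_bij hPp hπ (bas hP) hb0)).finrank_eq
    rw [← φ.finrank_eq, Module.finrank_fintype_fun_eq_card, Module.finrank_fintype_fun_eq_card,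
      Fintype.card_fin] at h1
    exact h1
  have idx : (Σ j, Fin (P j).natDegree) ≃ Fin n := Fintype.equivFinOfCardEq hcard
  set b := (bas hP).reindex idx with hbdef
  have hb : ∀ z, redP hPp z = 0 → ∀ i, π (b.repr z i) = 0 := by
    intro z hz i
    rw [hbdef, Module.Basis.repr_reindex_apply]
    exact hb0 z hz _
  have hrn : r ≤ n := by
    rw [← hcard, Fintype.card_sigma]
    calc r = ∑ j : Fin r, 1 := by simp
      _ ≤ ∑ j : Fin r, Fintype.card (Fin (P j).natDegree) := by
        refine Finset.sum_le_sum fun j _ => ?_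
        rw [Fintype.card_fin]
        have h1 : (P j).natDegree = (q j).natDegree := by rw [← hPp j]; exact ((hP j).natDegree_map π).symm
        rw [h1]
        exact (hqi j).natDegree_pos
  set c' : Fin r → R := fun j => c (Fin.castLE hrn j) with hc'
  set B := Algebra.leftMulMatrix b (bet P c') with hB
  have hBt : Toral π p e B := toral_bet hP hPp p hπ hq hqi hpP e he c' (fun j => hc0 _)
    (fun i j hij => hcd _ _ (fun h => hij (Fin.castLE_injective hrn h))) b hb
  -- the matrix of the roots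
  set xA : Π j, AdjoinRoot (P j) := fun j => AdjoinRoot.root (P j) with hxA
  set S := Algebra.leftMulMatrix b xA with hS
  set ψ := LinearEquiv.ofBijective (psi hPp b) (psi_bij hPp hπ b hb) with hψ
  have hψS : ∀ a : Fin n → k, ψ (S.map π *ᵥ a) = redP hPp xA * ψ a := by
    intro a
    choose a' ha' using fun i => hπ.surj (a i)
    obtain ⟨z, hz⟩ : ∃ z, (b.repr z : Fin n → R) = a' :=
      ⟨b.repr.symm (Finsupp.equivFunOnFinite.symm a'), by simp⟩
    have h1 : a = fun i => π (b.repr z i) := by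
      funext i
      rw [hz, ha']
    have h2 : S.map π *ᵥ a = fun i => π (b.repr (xA * z) i) := by
      funext i
      have h3 := congrFun (Algebra.leftMulMatrix_mulVec_repr b xA z) i
      rw [← h3, h1]
      simp only [Matrix.mulVec, dotProduct, Matrix.map_apply, map_sum, map_mul]
      rfl
    have h4 : ∀ w, ψ w = psi hPp b w := fun w => rfl
    rw [h2, h4, psi_map, h1, h4, psi_map, map_mul]
  set qq : (Fin n → k) ≃ₗ[k] (Fin n → k) := φ.trans ψ.symm with hqq
  have hqs : ∀ v, qq (s *ᵥ v) = S.map π *ᵥ qq v := by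
    intro v
    apply ψ.injective
    rw [hψS, hqq, LinearEquiv.trans_apply, LinearEquiv.trans_apply, LinearEquiv.apply_symm_apply,
      LinearEquiv.apply_symm_apply]
    funext j
    rw [hφ, Pi.mul_apply, redP_apply, hxA, red_root]
  -- the matrix of the conjugation
  set Q0 : Matrix (Fin n) (Fin n) k := LinearMap.toMatrix' (qq : (Fin n → k) →ₗ[k] (Fin n → k)) with hQ0
  have hQ0v : ∀ v, Q0 *ᵥ v = qq v := fun v => by rw [hQ0, LinearMap.toMatrix'_mulVec]; rfl
  have hQ0u : IsUnit Q0 := by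
    refine ⟨⟨Q0, LinearMap.toMatrix' (qq.symm : (Fin n → k) →ₗ[k] (Fin n → k)), ?_, ?_⟩, rfl⟩
    · rw [hQ0, ← LinearMap.toMatrix'_comp]
      simp
    · rw [hQ0, ← LinearMap.toMatrix'_comp]
      simp
  choose Qe hQe using fun (ij : Fin n × Fin n) => hπ.surj (Q0 ij.1 ij.2)
  have hQmap : (Matrix.of fun i j => Qe (i, j)).map π = Q0 := by
    ext i j
    simp [hQe]
  obtain ⟨Q, hQ⟩ : IsUnit (Matrix.of fun i j => Qe (i, j)) := by
    apply gl_isUnit hπ
    rw [hQmap]
    exact hQ0u
  have hQ' : ((GeneralLinearGroup.map π Q : GL (Fin n) k) : Matrix (Fin n) (Fin n) k) = Q0 := by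
    rw [← hQmap, ← hQ]
    rfl
  have hQs : Q0 * s = S.map π * Q0 := by
    apply Matrix.toLin'.injective
    apply LinearMap.ext
    intro v
    rw [Matrix.toLin'_apply, Matrix.toLin'_apply, ← Matrix.mulVec_mulVec, ← Matrix.mulVec_mulVec, hQ0v, hqs, hQ0v]
  have hSu : IsUnit S := by
    apply gl_isUnit hπ
    have h1 : S.map π = ((GeneralLinearGroup.map π (Q * u * Q⁻¹) : GL (Fin n) k) : Matrix (Fin n) (Fin n) k) := by
      rw [map_mul, map_mul, Units.val_mul, Units.val_mul, hQ', ← hs, hQs, mul_assoc, ← hQ', ← Units.val_mul,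
        ← map_mul, mul_inv_cancel, map_one, Units.val_one, mul_one]
    rw [h1]
    exact Units.isUnit _
  obtain ⟨σ, hσ⟩ := hSu
  have hσr : GeneralLinearGroup.map π (Q * u * Q⁻¹) = GeneralLinearGroup.map π σ := by
    apply Units.ext
    have h1 : ((GeneralLinearGroup.map π σ : GL (Fin n) k) : Matrix (Fin n) (Fin n) k) = S.map π := by
      rw [← hσ]; rfl
    rw [h1, map_mul, map_mul, Units.val_mul, Units.val_mul, hQ', ← hs, hQs, mul_assoc, ← hQ', ← Units.val_mul,
      ← map_mul, mul_inv_cancel, map_one, Units.val_one, mul_one]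
  have hordu : orderOf (Q * u * Q⁻¹) = orderOf u := by
    have := orderOf_injective (MulAut.conj Q).toMonoidHom (MulEquiv.injective _) u
    rw [← this]
    rfl
  obtain ⟨M, hM1, hM2⟩ := preg_pow (GeneralLinearGroup.map π : GL (Fin n) R →* GL (Fin n) k) p hp σ (by
    rw [← hσr]
    intro hd
    exact hu (hordu ▸ (hd.trans (orderOf_map_dvd _ _))))
  obtain ⟨y, hy⟩ := conj_of_red hπ (Q * u * Q⁻¹) (σ ^ M) (orderOf u * orderOf (σ ^ M)) (by
      rw [Nat.cast_mul]
      refine mul_ne_zero hN0 ?_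
      rw [Ne, CharP.cast_eq_zero_iff k p]
      exact hM2) (by rw [← hordu, pow_mul, pow_orderOf_eq_one, one_pow])
      (by rw [mul_comm, pow_mul, pow_orderOf_eq_one, one_pow]) (by rw [hM1, hσr])
  -- the conjugating element
  have hg : (y * Q) * u = σ ^ M * (y * Q) := by
    have h1 : y * (Q * u * Q⁻¹) * Q = σ ^ M * y * Q := by rw [hy]
    rw [← mul_assoc (σ ^ M), ← h1]
    group
  set g := y * Q with hgdef
  refine ⟨((g⁻¹ : GL (Fin n) R) : Matrix (Fin n) (Fin n) R) * B * (g : Matrix (Fin n) (Fin n) R),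
    toral_conj g B hBt, ?_⟩
  have hcomm : ((σ ^ M : GL (Fin n) R) : Matrix (Fin n) (Fin n) R) * B =
      B * ((σ ^ M : GL (Fin n) R) : Matrix (Fin n) (Fin n) R) := by
    have h1 : Commute S B := by
      rw [hS, hB]
      exact (Commute.all xA (bet P c')).map _
    rw [Units.val_pow_eq_pow_val, hσ]
    exact (h1.pow_left M)
  have hu' : u = g⁻¹ * σ ^ M * g := by
    rw [mul_assoc, ← hg, inv_mul_cancel_left]
  have e3 : (g : Matrix (Fin n) (Fin n) R) * ((g⁻¹ : GL (Fin n) R) : Matrix (Fin n) (Fin n) R) = 1 := by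
    rw [← Units.val_mul, mul_inv_cancel, Units.val_one]
  have e4 : (u : Matrix (Fin n) (Fin n) R) = ((g⁻¹ : GL (Fin n) R) : Matrix (Fin n) (Fin n) R) *
      ((σ ^ M : GL (Fin n) R) : Matrix (Fin n) (Fin n) R) * (g : Matrix (Fin n) (Fin n) R) := by
    conv_lhs => rw [hu']
    rw [Units.val_mul, Units.val_mul]
  rw [e4]
  calc ((g⁻¹ : GL (Fin n) R) : Matrix (Fin n) (Fin n) R) *
      ((σ ^ M : GL (Fin n) R) : Matrix (Fin n) (Fin n) R) * (g : Matrix (Fin n) (Fin n) R) *
      (((g⁻¹ : GL (Fin n) R) : Matrix (Fin n) (Fin n) R) * B * (g : Matrix (Fin n) (Fin n) R)) =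
      ((g⁻¹ : GL (Fin n) R) : Matrix (Fin n) (Fin n) R) *
      ((σ ^ M : GL (Fin n) R) : Matrix (Fin n) (Fin n) R) * ((g : Matrix (Fin n) (Fin n) R) *
      ((g⁻¹ : GL (Fin n) R) : Matrix (Fin n) (Fin n) R)) * B * (g : Matrix (Fin n) (Fin n) R) := by
        simp only [mul_assoc]
    _ = ((g⁻¹ : GL (Fin n) R) : Matrix (Fin n) (Fin n) R) *
      (((σ ^ M : GL (Fin n) R) : Matrix (Fin n) (Fin n) R) * B) * (g : Matrix (Fin n) (Fin n) R) := by
        rw [e3, mul_one, mul_assoc ((g⁻¹ : GL (Fin n) R) : Matrix (Fin n) (Fin n) R)]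
    _ = ((g⁻¹ : GL (Fin n) R) : Matrix (Fin n) (Fin n) R) * B * ((g : Matrix (Fin n) (Fin n) R) *
      ((g⁻¹ : GL (Fin n) R) : Matrix (Fin n) (Fin n) R)) *
      ((σ ^ M : GL (Fin n) R) : Matrix (Fin n) (Fin n) R) * (g : Matrix (Fin n) (Fin n) R) := by
        rw [hcomm, e3, mul_one]
        simp only [mul_assoc]
    _ = _ := by simp only [mul_assoc]

end Pool.Agent.H498.BT
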