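import Pool.Agent.H498.BT.Exi
import Pool.Agent.H498.BT.Cnt

/-!
# Class functions on `GL_n(k)` and toral representations of `GL_n(R)`
-/

set_option autoImplicit false

namespace Pool.Agent.H498.BT

open Polynomial Matrix

variable {R k : Type} [CommRing R] [Field k] (π : R →+* k)

/-- `e x = e y` means congruence modulo `(e)`. -/
structure SelfDual (e : R) : Prop where
  ann : ∀ x, e * x = 0 ↔ ∃ y, x = e * y

/-- `ρ` is an irreducible representation of `GL_n(R)` with a nonzero vector on which the congruence subgroup of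
the `g` with `e g = e` acts through `g ↦ Ψ (tr (β (g - 1)))` for some toral `β`. -/
def IsToralRep (p : ℕ) (e : R) (Ψ : AddChar R ℂ) {n : ℕ} {V : Type} [AddCommGroup V] [Module ℂ V]
    (ρ : Representation ℂ (GL (Fin n) R) V) : Prop :=
  ρ.IsIrreducible ∧ ∃ β : Matrix (Fin n) (Fin n) R, Toral π p e β ∧ ∃ v : V, v ≠ 0 ∧
    ∀ g : GL (Fin n) R, e • (g : Matrix (Fin n) (Fin n) R) = e • 1 →
      ρ g v = Ψ (trace (β * ((g : Matrix (Fin n) (Fin n) R) - 1))) • v

/-- the congruence subgroup -/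
def KK (e : R) (n : ℕ) : Subgroup (GL (Fin n) R) where
  carrier := {g | e • (g : Matrix (Fin n) (Fin n) R) = e • 1}
  mul_mem' := by
    intro a b ha hb
    show e • ((a * b : GL (Fin n) R) : Matrix (Fin n) (Fin n) R) = e • 1
    have ha' : e • (a : Matrix (Fin n) (Fin n) R) = e • 1 := ha
    have hb' : e • (b : Matrix (Fin n) (Fin n) R) = e • 1 := hb
    rw [Units.val_mul, ← smul_mul_assoc, ha', smul_mul_assoc, one_mul, hb']
  one_mem' := rfl
  inv_mem' := by
    intro a ha
    have ha' : e • (a : Matrix (Fin n) (Fin n) R) = e • 1 := ha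
    show e • ((a⁻¹ : GL (Fin n) R) : Matrix (Fin n) (Fin n) R) = e • 1
    have h1 := congrArg (fun M => M * ((a⁻¹ : GL (Fin n) R) : Matrix (Fin n) (Fin n) R)) ha'
    simp only [smul_mul_assoc] at h1
    rw [← Units.val_mul, mul_inv_cancel, Units.val_one, one_mul] at h1
    exact h1.symm

lemma mem_KK (e : R) (n : ℕ) (g : GL (Fin n) R) : g ∈ KK e n ↔ e • (g : Matrix (Fin n) (Fin n) R) = e • 1 := Iff.rfl

instance (e : R) (n : ℕ) : (KK e n).Normal where
  conj_mem := by
    intro a ha g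
    rw [mem_KK] at ha ⊢
    rw [Units.val_mul, Units.val_mul, ← smul_mul_assoc, ← mul_smul_comm, ha, mul_smul_comm, mul_one,
      smul_mul_assoc, ← Units.val_mul, mul_inv_cancel, Units.val_one]

variable {π}

lemma sq_zero {e : R} (he : SelfDual e) {n : ℕ} (A B : Matrix (Fin n) (Fin n) R)
    (hA : e • A = 0) (hB : e • B = 0) : A * B = 0 := by
  ext i j
  rw [Matrix.mul_apply, Matrix.zero_apply]
  refine Finset.sum_eq_zero fun l _ => ?_
  have h1 : e * A i l = 0 := by
    have := congrFun (congrFun hA i) l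
    simpa using this
  have h2 : e * B l j = 0 := by
    have := congrFun (congrFun hB l) j
    simpa using this
  obtain ⟨y, hy⟩ := (he.ann _).1 h1
  rw [hy, mul_comm e y, mul_assoc, h2, mul_zero]

lemma KK_sub {e : R} {n : ℕ} (g : KK e n) : e • (((g : GL (Fin n) R) : Matrix (Fin n) (Fin n) R) - 1) = 0 := by
  rw [smul_sub, (mem_KK e n g).1 g.2, sub_self]

/-- the character of the congruence subgroup -/
noncomputable def chiB {e : R} (he : SelfDual e) (Ψ : AddChar R ℂ) {n : ℕ} (β : Matrix (Fin n) (Fin n) R) :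
    KK e n →* ℂˣ :=
  MonoidHom.toHomUnits
    { toFun := fun g => Ψ (trace (β * (((g : GL (Fin n) R) : Matrix (Fin n) (Fin n) R) - 1)))
      map_one' := by simp
      map_mul' := by
        intro a b
        rw [← AddChar.map_add_eq_mul, ← trace_add, ← mul_add]
        congr 3
        have h1 := sq_zero he _ _ (KK_sub a) (KK_sub b)
        rw [sub_mul, mul_sub, one_mul, mul_one] at h1
        rw [Subgroup.coe_mul, Units.val_mul]
        have h2 : ((a : GL (Fin n) R) : Matrix (Fin n) (Fin n) R) * ((b : GL (Fin n) R) : Matrix (Fin n) (Fin n) R) =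
            ((a : GL (Fin n) R) : Matrix (Fin n) (Fin n) R) +
              (((b : GL (Fin n) R) : Matrix (Fin n) (Fin n) R) - 1) := by
          rw [← sub_eq_zero, ← h1]
          abel
        rw [h2]
        abel }

lemma chiB_apply {e : R} (he : SelfDual e) (Ψ : AddChar R ℂ) {n : ℕ} (β : Matrix (Fin n) (Fin n) R) (g : KK e n) :
    ((chiB he Ψ β g : ℂˣ) : ℂ) = Ψ (trace (β * (((g : GL (Fin n) R) : Matrix (Fin n) (Fin n) R) - 1))) := rfl

lemma ann_ker {e : R} (he : e ≠ 0) (hπ : NilSurj π) (x : R) (h : e * x = 0) : π x = 0 := by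
  by_contra hne
  exact he ((hπ.isUnit x hne).mul_left_eq_zero.1 h)

lemma KK_red {e : R} (he : e ≠ 0) (hπ : NilSurj π) {n : ℕ} (g : GL (Fin n) R) (hg : g ∈ KK e n) :
    GeneralLinearGroup.map π g = 1 := by
  apply Units.ext
  ext i j
  have h1 := KK_sub (⟨g, hg⟩ : KK e n)
  have h2 := congrFun (congrFun h1 i) j
  have h3 : π ((g : Matrix (Fin n) (Fin n) R) i j - (1 : Matrix (Fin n) (Fin n) R) i j) = 0 := by
    apply ann_ker he hπ
    simpa using h2
  rw [map_sub, sub_eq_zero] at h3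
  rw [GeneralLinearGroup.map_apply, h3, Units.val_one, Matrix.one_apply, Matrix.one_apply]
  split_ifs <;> simp

lemma KK_pgroup {e : R} (he : SelfDual e) (he0 : e ≠ 0) (hπ : NilSurj π) (p : ℕ) [CharP k p] (n : ℕ) :
    IsPGroup p (KK e n) := by
  intro g
  have h1 : IsNilpotent (p : R) := hπ.nil _ (by rw [map_natCast, CharP.cast_eq_zero])
  obtain ⟨a, ha⟩ := h1
  refine ⟨a, ?_⟩
  set Z : Matrix (Fin n) (Fin n) R := ((g : GL (Fin n) R) : Matrix (Fin n) (Fin n) R) - 1 with hZ
  have hZZ : Z * Z = 0 := sq_zero he _ _ (KK_sub g) (KK_sub g)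
  have h2 : ∀ m : ℕ, (1 + Z) ^ m = 1 + (m : R) • Z := by
    intro m
    induction m with
    | zero => simp
    | succ m ih =>
      rw [pow_succ, ih, add_mul, one_mul, mul_add, mul_one, smul_mul_assoc, hZZ, smul_zero, add_zero,
        Nat.cast_succ, add_smul, one_smul]
      abel
  apply Subtype.ext
  apply Units.ext
  rw [Subgroup.coe_pow, Units.val_pow_eq_pow_val, OneMemClass.coe_one, Units.val_one]
  have h3 : ((g : GL (Fin n) R) : Matrix (Fin n) (Fin n) R) = 1 + Z := by rw [hZ]; abel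
  rw [h3, h2, Nat.cast_pow, ha, zero_smul, add_zero]

/-- **Every class function on the `p`-regular elements is a combination of characters of toral representations.** -/
theorem toral_span [Finite R] [Finite k] (p : ℕ) [Fact p.Prime] [CharP k p] (hπ : NilSurj π) {n : ℕ}
    {e : R} (he : SelfDual e) (he0 : e ≠ 0) (c : Fin n → R) (hc0 : ∀ j, π (c j) = 0)
    (hcd : ∀ i j, i ≠ j → e * (c i - c j) ≠ 0) (Ψ : AddChar R ℂ)
    (F : GL (Fin n) k → ℂ) (hF : ∀ g x, F (x * g * x⁻¹) = F g) :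
    ∃ f ∈ Submodule.span ℂ {f : GL (Fin n) R → ℂ | ∃ (V : Type) (_ : AddCommGroup V) (_ : Module ℂ V)
        (_ : FiniteDimensional ℂ V) (ρ : Representation ℂ (GL (Fin n) R) V), IsToralRep π p e Ψ ρ ∧
          f = fun g => LinearMap.trace ℂ V (ρ g)},
      ∀ g : GL (Fin n) R, ¬ p ∣ orderOf g → f g = F (GeneralLinearGroup.map π g) := by
  obtain ⟨f, hf1, hf2⟩ := class_mem (K := KK e n) p (KK_pgroup he he0 hπ p n)
    {χ | ∃ β, Toral π p e β ∧ χ = chiB he Ψ β} (by
      intro u hu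
      obtain ⟨β, hβ, hc⟩ := exists_toral p hπ e he0 c hc0 hcd u hu
      refine ⟨_, ⟨β, hβ, rfl⟩, fun κ => ?_⟩
      apply Units.ext
      rw [chiB_apply, chiB_apply]
      congr 1
      have h1 : ((u * (κ : GL (Fin n) R) * u⁻¹ : GL (Fin n) R) : Matrix (Fin n) (Fin n) R) - 1 =
          (u : Matrix (Fin n) (Fin n) R) * ((((κ : GL (Fin n) R)) : Matrix (Fin n) (Fin n) R) - 1) *
            ((u⁻¹ : GL (Fin n) R) : Matrix (Fin n) (Fin n) R) := by
        rw [Units.val_mul, Units.val_mul, mul_sub, sub_mul, mul_one, ← Units.val_mul u u⁻¹, mul_inv_cancel,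
          Units.val_one]
      show trace (β * (((u * (κ : GL (Fin n) R) * u⁻¹ : GL (Fin n) R) : Matrix (Fin n) (Fin n) R) - 1)) = _
      rw [h1, ← mul_assoc, trace_mul_comm, ← mul_assoc, ← mul_assoc]
      have h2 : ((u⁻¹ : GL (Fin n) R) : Matrix (Fin n) (Fin n) R) * β * (u : Matrix (Fin n) (Fin n) R) = β := by
        rw [mul_assoc, ← hc, ← mul_assoc, ← Units.val_mul, inv_mul_cancel, Units.val_one, one_mul]
      rw [h2])
    (fun g => F (GeneralLinearGroup.map π g)) (by
      intro u g x hu hg h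
      have h1 := KK_red he0 hπ _ h
      rw [map_mul, map_inv, inv_mul_eq_one, map_mul, map_mul, map_inv] at h1
      show F (GeneralLinearGroup.map π u) = F (GeneralLinearGroup.map π g)
      rw [h1, hF])
  refine ⟨f, Submodule.span_mono ?_ hf1, hf2⟩
  intro φ hφ
  simp only [Set.mem_iUnion] at hφ
  obtain ⟨χ, ⟨β, hβ, rfl⟩, V, i1, i2, i3, ρ, hρ, ⟨v, hv0, hv⟩, rfl⟩ := hφ
  refine ⟨V, i1, i2, i3, ρ, ⟨hρ, β, hβ, v, hv0, fun g hg => ?_⟩, rfl⟩
  exact hv ⟨g, hg⟩

end Pool.Agent.H498.BT
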