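import Mathlib

/-!
# Rational linear algebra
-/

set_option autoImplicit false

namespace Pool.Agent.H498.BT

variable {T W : Type} [Fintype W] (A : T → W → ℕ)

/-- the rational span of the rows -/
def rowQ : Submodule ℚ (W → ℚ) := Submodule.span ℚ (Set.range fun τ w => (A τ w : ℚ))

lemma exists_nu (h : rowQ A ≠ ⊤) : ∃ ν : W → ℤ, ν ≠ 0 ∧ ∀ τ, ∑ w, (A τ w : ℤ) * ν w = 0 := by
  classical
  obtain ⟨f, hf0, hf⟩ := Submodule.exists_le_ker_of_lt_top _ (lt_top_iff_ne_top.2 h)
  set q : W → ℚ := fun w => f (Pi.single w 1) with hq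
  have hfv : ∀ v : W → ℚ, f v = ∑ w, v w * q w := by
    intro v
    conv_lhs => rw [pi_eq_sum_univ' v]
    rw [map_sum]
    refine Finset.sum_congr rfl fun w _ => ?_
    rw [map_smul, smul_eq_mul, hq]
  obtain ⟨b, hb⟩ := IsLocalization.exist_integer_multiples_of_finite (nonZeroDivisors ℤ) q
  choose z hz using hb
  have hz' : ∀ w, (z w : ℚ) = (b : ℤ) * q w := by
    intro w
    have := hz w
    rw [zsmul_eq_mul] at this
    exact this
  refine ⟨z, ?_, ?_⟩
  · intro h0
    apply hf0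
    apply LinearMap.ext
    intro v
    rw [hfv, LinearMap.zero_apply]
    refine Finset.sum_eq_zero fun w _ => ?_
    have h1 := hz' w
    rw [h0, Pi.zero_apply, Int.cast_zero] at h1
    have hb0 : ((b : ℤ) : ℚ) ≠ 0 := by exact_mod_cast nonZeroDivisors.coe_ne_zero b
    rw [(mul_eq_zero.1 h1.symm).resolve_left hb0, mul_zero]
  · intro τ
    have h1 : f (fun w => (A τ w : ℚ)) = 0 := hf (Submodule.subset_span ⟨τ, rfl⟩)
    rw [hfv] at h1
    have h2 : ((∑ w, (A τ w : ℤ) * z w : ℤ) : ℚ) = 0 := by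
      push_cast
      simp only [hz']
      calc ∑ w, (A τ w : ℚ) * (((b : ℤ) : ℚ) * q w) = ((b : ℤ) : ℚ) * ∑ w, (A τ w : ℚ) * q w := by
            rw [Finset.mul_sum]
            exact Finset.sum_congr rfl fun w _ => by ring
        _ = 0 := by rw [h1, mul_zero]
    exact_mod_cast h2

lemma rowQ_top [DecidableEq W] (h : ∀ w, ∃ c : T →₀ ℂ, ∀ w', (c.sum fun τ a => a * (A τ w' : ℂ)) = if w' = w then 1 else 0) :
    rowQ A = ⊤ := by
  classical
  by_contra hne
  obtain ⟨ν, hν0, hν⟩ := exists_nu A hne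
  apply hν0
  funext w
  obtain ⟨c, hc⟩ := h w
  have h1 : ∑ w', (c.sum fun τ a => a * (A τ w' : ℂ)) * (ν w' : ℂ) = (ν w : ℂ) := by
    rw [Finset.sum_eq_single w]
    · rw [hc, if_pos rfl, one_mul]
    · intro w' _ hw
      rw [hc, if_neg hw, zero_mul]
    · intro hw; exact absurd (Finset.mem_univ w) hw
  have h2 : ∑ w', (c.sum fun τ a => a * (A τ w' : ℂ)) * (ν w' : ℂ) = 0 := by
    simp only [Finsupp.sum, Finset.sum_mul]
    rw [Finset.sum_comm]
    refine Finset.sum_eq_zero fun τ _ => ?_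
    have h3 : ∑ w, (A τ w : ℂ) * (ν w : ℂ) = 0 := by
      have := hν τ
      exact_mod_cast congrArg (Int.cast : ℤ → ℂ) this
    calc ∑ w', c τ * (A τ w' : ℂ) * (ν w' : ℂ) = c τ * ∑ w', (A τ w' : ℂ) * (ν w' : ℂ) := by
          rw [Finset.mul_sum]
          exact Finset.sum_congr rfl fun w _ => by ring
      _ = 0 := by rw [h3, mul_zero]
  rw [h1] at h2
  simpa using h2

/-- If the rows span, they determine families in torsion-free groups. -/
lemma eq_of_top (h : rowQ A = ⊤) {M : Type*} [AddCommGroup M] (htf : ∀ (N : ℤ) (x : M), N ≠ 0 → N • x = 0 → x = 0)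
    (Z Z' : W → M) (hZ : ∀ τ, ∑ w, A τ w • Z w = ∑ w, A τ w • Z' w) : Z = Z' := by
  classical
  funext w
  have h1 : (Pi.single w 1 : W → ℚ) ∈ rowQ A := by rw [h]; trivial
  rw [rowQ, Finsupp.mem_span_range_iff_exists_finsupp] at h1
  obtain ⟨c, hc⟩ := h1
  obtain ⟨b, hb⟩ := IsLocalization.exist_integer_multiples_of_finset (nonZeroDivisors ℤ) (c.support.image c)
  have hb' : ∀ τ : T, ∃ z : ℤ, τ ∈ c.support → (z : ℚ) = (b : ℤ) * c τ := by
    intro τ
    by_cases hτ : τ ∈ c.support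
    · obtain ⟨z, hz⟩ := hb (c τ) (Finset.mem_image_of_mem _ hτ)
      exact ⟨z, fun _ => by rw [zsmul_eq_mul] at hz; exact hz⟩
    · exact ⟨0, fun h => absurd h hτ⟩
  choose z hz using hb'
  have h2 : ∀ w', ∑ τ ∈ c.support, z τ * (A τ w' : ℤ) = if w' = w then (b : ℤ) else 0 := by
    intro w'
    have h3 := congrFun hc w'
    rw [Finsupp.sum, Finset.sum_apply] at h3
    have h4 : ((∑ τ ∈ c.support, z τ * (A τ w' : ℤ) : ℤ) : ℚ) = ((if w' = w then (b : ℤ) else 0 : ℤ) : ℚ) := by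
      push_cast
      calc ∑ τ ∈ c.support, (z τ : ℚ) * (A τ w' : ℚ) = ∑ τ ∈ c.support, ((b : ℤ) : ℚ) * (c τ * (A τ w' : ℚ)) := by
            refine Finset.sum_congr rfl fun τ hτ => ?_
            rw [hz τ hτ]
            ring
        _ = ((b : ℤ) : ℚ) * ∑ τ ∈ c.support, (c τ • fun w => (A τ w : ℚ)) w' := by
            rw [Finset.mul_sum]
            rfl
        _ = _ := by
            rw [h3, Pi.single_apply]
            split_ifs <;> simp
    exact_mod_cast h4
  have hb0 : (b : ℤ) ≠ 0 := nonZeroDivisors.coe_ne_zero b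
  have key : ∀ Y : W → M, ∑ τ ∈ c.support, z τ • ∑ w', A τ w' • Y w' = (b : ℤ) • Y w := by
    intro Y
    calc ∑ τ ∈ c.support, z τ • ∑ w', A τ w' • Y w' =
        ∑ w', (∑ τ ∈ c.support, z τ * (A τ w' : ℤ)) • Y w' := by
          simp only [Finset.smul_sum, Finset.sum_smul]
          rw [Finset.sum_comm]
          refine Finset.sum_congr rfl fun w' _ => Finset.sum_congr rfl fun τ _ => ?_
          rw [mul_smul, natCast_zsmul]
      _ = (b : ℤ) • Y w := by
          rw [Finset.sum_eq_single w]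
          · rw [h2, if_pos rfl]
          · intro w' _ hw
            rw [h2, if_neg hw, zero_smul]
          · intro hw; exact absurd (Finset.mem_univ w) hw
  rw [← sub_eq_zero]
  apply htf b _ hb0
  rw [smul_sub, ← key Z, ← key Z', sub_eq_zero]
  exact Finset.sum_congr rfl fun τ _ => by rw [hZ τ]

/-- If the rows span, every vector is a rational combination of them. -/
lemma rel_of_top (h : rowQ A = ⊤) (v : W → ℕ) : ∃ N : ℕ, 0 < N ∧ ∃ b : T →₀ ℤ,
    ∀ w, (N : ℤ) * (v w : ℤ) = b.sum fun τ z => z * (A τ w : ℤ) := by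
  classical
  have h1 : (fun w => (v w : ℚ)) ∈ rowQ A := by rw [h]; trivial
  rw [rowQ, Finsupp.mem_span_range_iff_exists_finsupp] at h1
  obtain ⟨c, hc⟩ := h1
  refine ⟨∏ τ ∈ c.support, (c τ).den, Finset.prod_pos fun τ _ => (c τ).den_pos,
    Finsupp.onFinset c.support (fun τ => if τ ∈ c.support then
      (∏ τ' ∈ c.support.erase τ, ((c τ').den : ℤ)) * (c τ).num else 0) (fun τ hτ => by
        by_contra hcon
        rw [if_neg hcon] at hτ
        exact hτ rfl), fun w => ?_⟩
  have h3 := congrFun hc w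
  rw [Finsupp.sum, Finset.sum_apply] at h3
  rw [Finsupp.sum_of_support_subset _ (Finsupp.support_onFinset_subset) _ (by simp)]
  have h4 : (((∏ τ ∈ c.support, (c τ).den : ℕ) : ℤ) * (v w : ℤ) : ℤ) =
      ((∑ τ ∈ c.support, (if τ ∈ c.support then
      (∏ τ' ∈ c.support.erase τ, ((c τ').den : ℤ)) * (c τ).num else 0) * (A τ w : ℤ) : ℤ)) := by
    have h5 : ((((∏ τ ∈ c.support, (c τ).den : ℕ) : ℤ) * (v w : ℤ) : ℤ) : ℚ) =
      (((∑ τ ∈ c.support, (if τ ∈ c.support then
      (∏ τ' ∈ c.support.erase τ, ((c τ').den : ℤ)) * (c τ).num else 0) * (A τ w : ℤ) : ℤ)) : ℚ) := by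
      push_cast
      rw [← h3, Finset.mul_sum]
      refine Finset.sum_congr rfl fun τ hτ => ?_
      rw [if_pos hτ, ← Finset.mul_prod_erase c.support _ hτ, Pi.smul_apply, smul_eq_mul]
      have h6 : ((c τ).num : ℚ) = (c τ).den * c τ := by
        rw [mul_comm]
        exact (Rat.mul_den_eq_num (c τ)).symm
      rw [h6]
      ring
    exact_mod_cast h5
  rw [h4]
  rfl

/-- If the rows lie in a proper complex hyperplane, they do not determine families of natural numbers. -/
lemma not_determined (L : W → ℂ) (w₀ : W) (hL : L w₀ ≠ 0) (hA : ∀ τ, ∑ w, (A τ w : ℂ) * L w = 0) :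
    ∃ μ μ' : W → ℕ, μ ≠ μ' ∧ ∀ τ, ∑ w, A τ w * μ w = ∑ w, A τ w * μ' w := by
  classical
  have hne : rowQ A ≠ ⊤ := by
    intro h
    have h1 : (Pi.single w₀ 1 : W → ℚ) ∈ rowQ A := by rw [h]; trivial
    rw [rowQ, Finsupp.mem_span_range_iff_exists_finsupp] at h1
    obtain ⟨c, hc⟩ := h1
    apply hL
    have h2 : L w₀ = ∑ w, ((Pi.single w₀ 1 : W → ℚ) w : ℂ) * L w := by
      rw [Finset.sum_eq_single w₀]
      · simp
      · intro w _ hw
        rw [Pi.single_eq_of_ne hw]
        simp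
      · intro hw; exact absurd (Finset.mem_univ w₀) hw
    rw [h2, ← hc]
    calc ∑ w, (((c.sum fun τ a => a • fun w => (A τ w : ℚ)) w : ℚ) : ℂ) * L w =
        ∑ w, ∑ τ ∈ c.support, (c τ : ℂ) * ((A τ w : ℂ) * L w) := by
          refine Finset.sum_congr rfl fun w _ => ?_
          rw [Finsupp.sum, Finset.sum_apply, Rat.cast_sum, Finset.sum_mul]
          refine Finset.sum_congr rfl fun τ _ => ?_
          rw [Pi.smul_apply, smul_eq_mul]
          push_cast
          ring
      _ = 0 := by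
          rw [Finset.sum_comm]
          refine Finset.sum_eq_zero fun τ _ => ?_
          rw [← Finset.mul_sum, hA, mul_zero]
  obtain ⟨ν, hν0, hν⟩ := exists_nu A hne
  refine ⟨fun w => (ν w).toNat, fun w => (-ν w).toNat, ?_, ?_⟩
  · intro h
    apply hν0
    funext w
    have := congrFun h w
    have h3 := Int.toNat_sub_toNat_neg (ν w)
    rw [this, sub_self] at h3
    exact h3.symm
  · intro τ
    have h3 := hν τ
    have h4 : ∀ w, (ν w) = ((ν w).toNat : ℤ) - ((-ν w).toNat : ℤ) := fun w => (Int.toNat_sub_toNat_neg (ν w)).symm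
    have h5 : ∑ w, (A τ w : ℤ) * ((ν w).toNat : ℤ) - ∑ w, (A τ w : ℤ) * ((-ν w).toNat : ℤ) = 0 := by
      rw [← Finset.sum_sub_distrib]
      rw [← h3]
      refine Finset.sum_congr rfl fun w _ => ?_
      rw [← mul_sub, ← h4]
    rw [sub_eq_zero] at h5
    exact_mod_cast h5

end Pool.Agent.H498.BT
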