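import Pool.Agent.H498.BT.Dvr
import Pool.Agent.H498.BT.Lin
import Pool.Graph.R_pool_sql_team_seeded_63374d34.N28.BM.Thm

/-!
# Serre weights as combinations of reductions of toral representations, for a fixed Hodge type
-/

set_option autoImplicit false

namespace Pool.Agent.H498.BT

open Matrix Pool.Agent.N28.BM Polynomial

/-- `θ` is the Brauer character of the reduction modulo `p` of the representation `ρ` of `GL_n(R)`. -/
def IsReduction {R k : Type} [CommRing R] [Field k] (π : R →+* k) (p : ℕ) {n : ℕ}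
    (θ : GL (Fin n) k → ℂ) {V : Type} [AddCommGroup V] [Module ℂ V] (ρ : Representation ℂ (GL (Fin n) R) V) : Prop :=
  ∀ g : GL (Fin n) R, ¬ p ∣ orderOf g → θ (GeneralLinearGroup.map π g) = ρ.character g

/-- `θ` is the Brauer character of the reduction of a toral representation. -/
def IsToralType {R k : Type} [CommRing R] [Field k] (π : R →+* k) (p : ℕ) (e : R) (Ψ : AddChar R ℂ) {n : ℕ}
    (θ : GL (Fin n) k → ℂ) : Prop :=
  ∃ (V : Type) (_ : AddCommGroup V) (_ : Module ℂ V) (_ : FiniteDimensional ℂ V)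
    (ρ : Representation ℂ (GL (Fin n) R) V), IsToralRep π p e Ψ ρ ∧ IsReduction π p θ ρ

section Key

variable {k F : Type} [Field k] [Finite k] [Field F] [IsAlgClosed F] (ι : k →+* F) {p f : ℕ}
  [hp : Fact p.Prime] [CharP k p] {S : Type} [Fintype S] [DecidableEq S] {n : ℕ} (κ : S → ZMod f)
  (t : Fˣ →* ℂˣ) (s : Wt S (n + 1) → P S (n + 1)) (D : SerreWeights k F (n + 1) t)

omit [Finite k] [CharP k p] hp in
lemma charpoly_conj {n : ℕ} {K : Type} [Field K] (g x : GL (Fin n) K) :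
    ((x * g * x⁻¹ : GL (Fin n) K) : Matrix (Fin n) (Fin n) K).charpoly = (g : Matrix (Fin n) (Fin n) K).charpoly := by
  rw [Units.val_mul, Units.val_mul, Matrix.coe_units_inv]
  exact Matrix.charpoly_units_conj x _

omit [Finite k] [CharP k p] hp in
lemma list_eigen' {d : ℕ} (g : GL (Fin d) F) : ∃ y : Fin d → Fˣ, IsEigen (RingHom.id F) g y := by
  classical
  cases d with
  | zero =>
    refine ⟨Fin.elim0, ?_⟩
    unfold IsEigen
    simp [Matrix.charpoly]
  | succ d => exact list_eigen (RingHom.id F) g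

omit [Finite k] [CharP k p] hp in
lemma br_conj (w : D.W) (g x : GL (Fin (n + 1)) k) : D.br w (x * g * x⁻¹) = D.br w g := by
  obtain ⟨y, hy⟩ := list_eigen' (D.rep w g)
  have hy' : IsEigen (RingHom.id F) (D.rep w (x * g * x⁻¹)) y := by
    unfold IsEigen at hy ⊢
    rw [map_mul, map_mul, map_inv, charpoly_conj]
    exact hy
  rw [D.br_eq w _ y hy', D.br_eq w _ y hy]

variable {R : Type} [CommRing R] [Finite R] {π : R →+* k} (hπ : NilSurj π) {e : R} (he : SelfDual e)
  (he0 : e ≠ 0) (c : Fin (n + 1) → R) (hc0 : ∀ j, π (c j) = 0) (hcd : ∀ i j, i ≠ j → e * (c i - c j) ≠ 0)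
  (Ψ : AddChar R ℂ) {T : Type} (θ : T → GL (Fin (n + 1)) k → ℂ) (mult : T → Wt S (n + 1) → D.W → ℕ)
  (hmult : ∀ τ, IsMult ι (p := p) κ t s D (θ τ) (mult τ))
  (hT : ∀ (V : Type) [AddCommGroup V] [Module ℂ V] [FiniteDimensional ℂ V]
    (ρ : Representation ℂ (GL (Fin (n + 1)) R) V), IsToralRep π p e Ψ ρ → ∃ τ, IsReduction π p (θ τ) ρ)
  (hBr : LinearIndependent ℂ
    (fun (w : D.W) (g : {g : GL (Fin (n + 1)) k // ¬ p ∣ orderOf g}) => D.br w g))

include hπ in
omit [Finite k] [Field F] [IsAlgClosed F] [CharP k p] in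
lemma preg_lift {n : ℕ} (g : GL (Fin n) k) (hg : ¬ p ∣ orderOf g) :
    ∃ u : GL (Fin n) R, ¬ p ∣ orderOf u ∧ GeneralLinearGroup.map π u = g := by
  choose Qe hQe using fun (ij : Fin n × Fin n) => hπ.surj ((g : Matrix (Fin n) (Fin n) k) ij.1 ij.2)
  have hQmap : (Matrix.of fun i j => Qe (i, j)).map π = (g : Matrix (Fin n) (Fin n) k) := by
    ext i j
    simp [hQe]
  obtain ⟨Q, hQ⟩ : IsUnit (Matrix.of fun i j => Qe (i, j)) := by
    apply gl_isUnit hπ
    rw [hQmap]
    exact Units.isUnit _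
  have hQ' : GeneralLinearGroup.map π Q = g := by
    apply Units.ext
    rw [← hQmap, ← hQ]
    rfl
  obtain ⟨M, hM1, hM2⟩ := preg_pow (GeneralLinearGroup.map π : GL (Fin n) R →* GL (Fin n) k) p hp.out Q
    (by rw [hQ']; exact hg)
  exact ⟨Q ^ M, hM2, by rw [hM1, hQ']⟩

include hπ he he0 hc0 hcd hT in
/-- Class functions on the `p`-regular elements are combinations of the reductions of toral types. -/
theorem class_span (Fc : GL (Fin (n + 1)) k → ℂ) (hF : ∀ g x, Fc (x * g * x⁻¹) = Fc g) :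
    ∃ a : {τ // IsToralType π p e Ψ (θ τ)} →₀ ℂ, ∀ g : GL (Fin (n + 1)) k, ¬ p ∣ orderOf g →
      Fc g = a.sum fun τ z => z * θ τ g := by
  classical
  obtain ⟨φ, hφ1, hφ2⟩ := toral_span p hπ he he0 c hc0 hcd Ψ Fc hF
  have key : ∀ φ ∈ Submodule.span ℂ {f : GL (Fin (n + 1)) R → ℂ | ∃ (V : Type) (_ : AddCommGroup V) (_ : Module ℂ V)
        (_ : FiniteDimensional ℂ V) (ρ : Representation ℂ (GL (Fin (n + 1)) R) V), IsToralRep π p e Ψ ρ ∧
          f = fun g => LinearMap.trace ℂ V (ρ g)},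
      ∃ a : {τ // IsToralType π p e Ψ (θ τ)} →₀ ℂ, ∀ u : GL (Fin (n + 1)) R, ¬ p ∣ orderOf u →
        φ u = a.sum fun τ z => z * θ τ (GeneralLinearGroup.map π u) := by
    intro φ hφ
    induction hφ using Submodule.span_induction with
    | mem x hx =>
      obtain ⟨V, i1, i2, i3, ρ, hρ, rfl⟩ := hx
      obtain ⟨τ, hτ⟩ := hT V ρ hρ
      refine ⟨Finsupp.single ⟨τ, V, i1, i2, i3, ρ, hρ, hτ⟩ 1, fun u hu => ?_⟩
      rw [Finsupp.sum_single_index (by simp), one_mul]
      exact (hτ u hu).symm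
    | zero => exact ⟨0, fun u _ => by simp⟩
    | add x y _ _ hx hy =>
      obtain ⟨a, ha⟩ := hx
      obtain ⟨b, hb⟩ := hy
      refine ⟨a + b, fun u hu => ?_⟩
      rw [Finsupp.sum_add_index' (by simp) (by intros; ring), Pi.add_apply, ha u hu, hb u hu]
    | smul z x _ hx =>
      obtain ⟨a, ha⟩ := hx
      refine ⟨z • a, fun u hu => ?_⟩
      rw [Finsupp.sum_smul_index' (by simp), Pi.smul_apply, ha u hu, smul_eq_mul, Finsupp.mul_sum]
      refine Finsupp.sum_congr fun τ _ => ?_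
      rw [smul_eq_mul, mul_assoc]
  obtain ⟨a, ha⟩ := key φ hφ1
  refine ⟨a, fun g hg => ?_⟩
  obtain ⟨u, hu, rfl⟩ := preg_lift hπ g hg
  rw [← ha u hu, hφ2 u hu]

include hπ he he0 hc0 hcd hT hmult hBr in
theorem mult_span (h : Wt S (n + 1)) (hh : Dom h)
    (hne : ∀ (g : GL (Fin (n + 1)) k) (x : Fin (n + 1) → Fˣ), IsEigen ι g x → evx (pnt κ p t x) (s h) ≠ 0) :
    rowQ (fun τ : {τ // IsToralType π p e Ψ (θ τ)} => mult τ h) = ⊤ := by
  classical
  apply rowQ_top
  intro w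
  -- eigenvalues which depend on the characteristic polynomial only
  have hx : ∀ Q : k[X], ∃ x : Fin (n + 1) → Fˣ, (∃ x' : Fin (n + 1) → Fˣ, Q.map ι = ∏ i, (X - C ((x' i : Fˣ) : F))) →
      Q.map ι = ∏ i, (X - C ((x i : Fˣ) : F)) := by
    intro Q
    by_cases h : ∃ x' : Fin (n + 1) → Fˣ, Q.map ι = ∏ i, (X - C ((x' i : Fˣ) : F))
    · obtain ⟨x', hx'⟩ := h
      exact ⟨x', fun _ => hx'⟩
    · exact ⟨1, fun h' => absurd h' h⟩
  choose xc hxc using hx
  have hxe : ∀ g : GL (Fin (n + 1)) k, IsEigen ι g (xc (g : Matrix (Fin (n + 1)) (Fin (n + 1)) k).charpoly) := by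
    intro g
    obtain ⟨x, hx⟩ := list_eigen ι g
    exact hxc _ ⟨x, hx⟩
  obtain ⟨a, ha⟩ := class_span hπ he he0 c hc0 hcd Ψ θ hT
    (fun g => D.br w g / evx (pnt κ p t (xc (g : Matrix (Fin (n + 1)) (Fin (n + 1)) k).charpoly)) (s h))
    (by
      intro g x
      rw [br_conj, charpoly_conj])
  refine ⟨a, fun w' => ?_⟩
  have h1 : ∑ w', ((a.sum fun τ z => z * (mult τ h w' : ℂ)) - if w' = w then 1 else 0) •
      (fun (g : {g : GL (Fin (n + 1)) k // ¬ p ∣ orderOf g}) => D.br w' g) = 0 := by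
    funext g
    rw [Finset.sum_apply, Pi.zero_apply]
    have h2 := ha g g.2
    set E := evx (pnt κ p t (xc ((g : GL (Fin (n + 1)) k) : Matrix (Fin (n + 1)) (Fin (n + 1)) k).charpoly)) (s h) with hE
    have hE0 : E ≠ 0 := hne _ _ (hxe g)
    have h3 : D.br w g = a.sum fun τ z => z * ∑ w', (mult τ h w' : ℂ) * D.br w' g := by
      rw [div_eq_iff hE0] at h2
      rw [h2, Finsupp.sum_mul]
      refine Finsupp.sum_congr fun τ _ => ?_
      rw [hmult τ h hh g _ (hxe g), ← hE]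
      ring
    simp only [Pi.smul_apply, smul_eq_mul, sub_mul, Finset.sum_sub_distrib, ite_mul, one_mul, zero_mul,
      Finset.sum_ite_eq', Finset.mem_univ, if_true]
    rw [sub_eq_zero, h3]
    simp only [Finsupp.sum, Finset.sum_mul, Finset.mul_sum]
    rw [Finset.sum_comm]
    refine Finset.sum_congr rfl fun w' _ => Finset.sum_congr rfl fun τ _ => ?_
    ring
  have h4 := Fintype.linearIndependent_iff.1 hBr _ h1 w'
  rw [sub_eq_zero] at h4
  exact h4

end Key

end Pool.Agent.H498.BT
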