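import Mathlib

/-!
# Traces of commuting operators are combinations of irreducible characters
-/

set_option autoImplicit false

namespace Pool.Agent.H498.BT

open Module

section Lin

variable {V : Type} [AddCommGroup V] [Module ℂ V] [FiniteDimensional ℂ V]

lemma trace_compl (p q : Submodule ℂ V) (h : IsCompl p q) (A : V →ₗ[ℂ] V) :
    LinearMap.trace ℂ V A =
      LinearMap.trace ℂ p ((p.projectionOnto q h) ∘ₗ A ∘ₗ p.subtype) +
      LinearMap.trace ℂ q ((q.projectionOnto p h.symm) ∘ₗ A ∘ₗ q.subtype) := by
  have h1 : p.subtype ∘ₗ (p.projectionOnto q h) + q.subtype ∘ₗ (q.projectionOnto p h.symm) = LinearMap.id := by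
    apply LinearMap.ext
    intro x
    obtain ⟨y, hy, z, hz, rfl⟩ := Submodule.mem_sup.1 (show x ∈ p ⊔ q by rw [h.sup_eq_top]; trivial)
    rw [LinearMap.add_apply, LinearMap.comp_apply, LinearMap.comp_apply, map_add (p.projectionOnto q h),
      map_add (q.projectionOnto p h.symm), Submodule.projectionOnto_apply_of_mem_left h hy,
      Submodule.projectionOnto_apply_of_mem_right h hz, Submodule.projectionOnto_apply_of_mem_left h.symm hz,
      Submodule.projectionOnto_apply_of_mem_right h.symm hy]
    simp
  have h2 : A = (p.subtype ∘ₗ (p.projectionOnto q h)) ∘ₗ A + (q.subtype ∘ₗ (q.projectionOnto p h.symm)) ∘ₗ A := by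
    rw [← LinearMap.add_comp, h1, LinearMap.id_comp]
  conv_lhs => rw [h2]
  rw [map_add]
  congr 1
  · rw [LinearMap.comp_assoc, LinearMap.trace_comp_comm', LinearMap.comp_assoc]
  · rw [LinearMap.comp_assoc, LinearMap.trace_comp_comm', LinearMap.comp_assoc]

end Lin

variable {G : Type} [Group G] [Finite G] (K : Subgroup G) (χ : K →* ℂˣ)

/-- The characters of the irreducible representations of `G` which contain the character `χ` of `K`. -/
def IrrChar : Set (G → ℂ) :=
  {f | ∃ (V : Type) (_ : AddCommGroup V) (_ : Module ℂ V) (_ : FiniteDimensional ℂ V) (ρ : Representation ℂ G V),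
    ρ.IsIrreducible ∧ (∃ v : V, v ≠ 0 ∧ ∀ κ : K, ρ (κ : G) v = ((χ κ : ℂˣ) : ℂ) • v) ∧
      f = fun g => LinearMap.trace ℂ V (ρ g)}

theorem mem_span_of_commute : ∀ (d : ℕ) (V : Type) [AddCommGroup V] [Module ℂ V] [FiniteDimensional ℂ V]
    (ρ : Representation ℂ G V), finrank ℂ V ≤ d →
    (∀ W : Submodule ℂ V, (∀ g, ∀ w ∈ W, ρ g w ∈ W) → W ≠ ⊥ →
      ∃ v ∈ W, v ≠ 0 ∧ ∀ κ : K, ρ (κ : G) v = ((χ κ : ℂˣ) : ℂ) • v) →
    ∀ T : V →ₗ[ℂ] V, (∀ g, T ∘ₗ ρ g = ρ g ∘ₗ T) →
      (fun g => LinearMap.trace ℂ V (ρ g ∘ₗ T)) ∈ Submodule.span ℂ (IrrChar K χ) := by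
  intro d
  induction d with
  | zero =>
    intro V _ _ _ ρ hd _ T _
    have hsub : Subsingleton V := finrank_zero_iff.1 (Nat.le_zero.1 hd)
    have h0 : (fun g => LinearMap.trace ℂ V (ρ g ∘ₗ T)) = 0 := by
      funext g
      have : ρ g ∘ₗ T = 0 := by
        apply LinearMap.ext
        intro x
        exact Subsingleton.elim _ _
      rw [this, map_zero]
      rfl
    rw [h0]
    exact Submodule.zero_mem _
  | succ d ih =>
    intro V _ _ _ ρ hd hW T hT
    by_cases hnt : Nontrivial V
    swap
    · rw [not_nontrivial_iff_subsingleton] at hnt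
      exact ih V ρ (by rw [finrank_zero_of_subsingleton]; omega) hW T hT
    by_cases hirr : ρ.IsIrreducible
    · -- Schur
      obtain ⟨c, hc⟩ := Module.End.exists_eigenvalue T
      have hE : ∀ g, ∀ w ∈ Module.End.eigenspace T c, ρ g w ∈ Module.End.eigenspace T c := by
        intro g w hw
        rw [Module.End.mem_eigenspace_iff] at hw ⊢
        have := LinearMap.congr_fun (hT g) w
        rw [LinearMap.comp_apply, LinearMap.comp_apply, hw] at this
        rw [this, map_smul]
      have htop : Module.End.eigenspace T c = ⊤ := by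
        have h1 := hirr.eq_bot_or_eq_top (⟨Module.End.eigenspace T c, hE⟩ : Subrepresentation ρ)
        rcases h1 with h1 | h1
        · exact absurd (congrArg Subrepresentation.toSubmodule h1) hc
        · exact congrArg Subrepresentation.toSubmodule h1
      have hTc : T = c • LinearMap.id := by
        apply LinearMap.ext
        intro x
        have : x ∈ Module.End.eigenspace T c := by rw [htop]; trivial
        rw [Module.End.mem_eigenspace_iff] at this
        simpa using this
      have h2 : (fun g => LinearMap.trace ℂ V (ρ g ∘ₗ T)) = c • (fun g => LinearMap.trace ℂ V (ρ g)) := by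
        funext g
        rw [hTc, LinearMap.comp_smul, LinearMap.comp_id, map_smul]
        rfl
      rw [h2]
      refine Submodule.smul_mem _ _ (Submodule.subset_span ?_)
      obtain ⟨v, _, hv⟩ := hW ⊤ (fun _ _ _ => trivial) top_ne_bot
      exact ⟨V, _, _, inferInstance, ρ, hirr, ⟨v, hv⟩, rfl⟩
    · -- a proper subrepresentation
      have hex : ∃ W : Subrepresentation ρ, W ≠ ⊥ ∧ W ≠ ⊤ := by
        by_contra hcon
        push Not at hcon
        apply hirr
        have hn : Nontrivial (Subrepresentation ρ) := by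
          refine ⟨⊥, ⊤, fun h => ?_⟩
          have := congrArg Subrepresentation.toSubmodule h
          exact bot_ne_top this
        exact { eq_bot_or_eq_top := fun a => by
                  by_cases ha : a = ⊥
                  · exact Or.inl ha
                  · exact Or.inr (hcon a ha) }
      obtain ⟨W, hW1, hW2⟩ := hex
      have : Fintype G := Fintype.ofFinite G
      have : NeZero (Nat.card G : ℂ) := ⟨by exact_mod_cast (Nat.card_pos (α := G)).ne'⟩
      obtain ⟨W', hWW⟩ := exists_isCompl W
      have hc : IsCompl W.toSubmodule W'.toSubmodule := by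
        constructor
        · rw [disjoint_iff]
          have := congrArg Subrepresentation.toSubmodule (disjoint_iff.1 hWW.1)
          exact this
        · rw [codisjoint_iff]
          have := congrArg Subrepresentation.toSubmodule (codisjoint_iff.1 hWW.2)
          exact this
      have hW1' : W.toSubmodule ≠ ⊥ := fun h => hW1 (Subrepresentation.toSubmodule_injective h)
      have hW2' : W.toSubmodule ≠ ⊤ := fun h => hW2 (Subrepresentation.toSubmodule_injective h)
      have hW3' : W'.toSubmodule ≠ ⊤ := by
        intro h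
        apply hW1'
        have := hc.inf_eq_bot
        rwa [h, inf_top_eq] at this
      have key : ∀ (p q : Subrepresentation ρ) (h : IsCompl p.toSubmodule q.toSubmodule),
          p.toSubmodule ≠ ⊤ →
          (fun g => LinearMap.trace ℂ p.toSubmodule ((p.toSubmodule.projectionOnto q.toSubmodule h) ∘ₗ
            (ρ g ∘ₗ T) ∘ₗ p.toSubmodule.subtype)) ∈ Submodule.span ℂ (IrrChar K χ) := by
        intro p q h hp
        have hcomm : ∀ g (x : V), (p.toSubmodule.projectionOnto q.toSubmodule h) (ρ g x) =
            p.toRepresentation g ((p.toSubmodule.projectionOnto q.toSubmodule h) x) := by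
          intro g x
          obtain ⟨y, hy, z, hz, rfl⟩ := Submodule.mem_sup.1 (show x ∈ p.toSubmodule ⊔ q.toSubmodule by
            rw [h.sup_eq_top]; trivial)
          rw [map_add, map_add, map_add, Submodule.projectionOnto_apply_of_mem_left h hy,
            Submodule.projectionOnto_apply_of_mem_right h hz,
            Submodule.projectionOnto_apply_of_mem_left h (p.apply_mem_toSubmodule g hy),
            Submodule.projectionOnto_apply_of_mem_right h (q.apply_mem_toSubmodule g hz), add_zero, add_zero]
          rfl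
        set T' : p.toSubmodule →ₗ[ℂ] p.toSubmodule :=
          (p.toSubmodule.projectionOnto q.toSubmodule h) ∘ₗ T ∘ₗ p.toSubmodule.subtype with hT'
        have h1 : ∀ g, (p.toSubmodule.projectionOnto q.toSubmodule h) ∘ₗ (ρ g ∘ₗ T) ∘ₗ p.toSubmodule.subtype =
            p.toRepresentation g ∘ₗ T' := by
          intro g
          apply LinearMap.ext
          intro x
          simp only [LinearMap.comp_apply, hT']
          rw [hcomm]
        have h2 := ih p.toSubmodule p.toRepresentation (by
          have := Submodule.finrank_lt (lt_top_iff_ne_top.2 hp).ne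
          omega) (by
          intro U hU hU0
          obtain ⟨v, hv1, hv2, hv3⟩ := hW (U.map p.toSubmodule.subtype) (by
            rintro g w ⟨w', hw', rfl⟩
            exact ⟨_, hU g w' hw', rfl⟩) (by
            intro hbot
            apply hU0
            rw [eq_bot_iff]
            intro w hw
            have h5 : p.toSubmodule.subtype w ∈ U.map p.toSubmodule.subtype := ⟨w, hw, rfl⟩
            rw [hbot, Submodule.mem_bot] at h5
            rw [Submodule.mem_bot]
            exact Subtype.ext h5)
          obtain ⟨v', hv', rfl⟩ := hv1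
          refine ⟨v', hv', fun h0 => hv2 (by rw [h0]; rfl), fun κ => ?_⟩
          apply Subtype.ext
          exact hv3 κ) T' (by
          intro g
          apply LinearMap.ext
          intro x
          simp only [LinearMap.comp_apply, hT']
          rw [← hcomm]
          congr 1
          exact LinearMap.congr_fun (hT g) (x : V))
        simpa only [h1] using h2
      have h3 : (fun g => LinearMap.trace ℂ V (ρ g ∘ₗ T)) = (fun g => LinearMap.trace ℂ W.toSubmodule
          ((W.toSubmodule.projectionOnto W'.toSubmodule hc) ∘ₗ (ρ g ∘ₗ T) ∘ₗ W.toSubmodule.subtype)) +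
          (fun g => LinearMap.trace ℂ W'.toSubmodule
          ((W'.toSubmodule.projectionOnto W.toSubmodule hc.symm) ∘ₗ (ρ g ∘ₗ T) ∘ₗ W'.toSubmodule.subtype)) := by
        funext g
        exact trace_compl _ _ hc _
      rw [h3]
      exact Submodule.add_mem _ (key W W' hc hW2') (key W' W hc.symm hW3')

/-! ### The functions on `G` -/

/-- right translation on the functions on `G` -/
def regR (G : Type) [Group G] : Representation ℂ G (G → ℂ) where
  toFun g := { toFun := fun f x => f (x * g)
               map_add' := fun _ _ => rfl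
               map_smul' := fun _ _ => rfl }
  map_one' := by
    apply LinearMap.ext
    intro f
    funext x
    simp
  map_mul' a b := by
    apply LinearMap.ext
    intro f
    funext x
    simp [mul_assoc]

/-- the functions with `f (κ x) = χ(κ) f(x)` -/
def spE : Submodule ℂ (G → ℂ) where
  carrier := {f | ∀ (κ : K) (x : G), f (κ * x) = ((χ κ : ℂˣ) : ℂ) * f x}
  add_mem' := by
    intro a b ha hb κ x
    rw [Pi.add_apply, Pi.add_apply, ha, hb, mul_add]
  zero_mem' := by
    intro κ x
    simp
  smul_mem' := by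
    intro c a ha κ x
    rw [Pi.smul_apply, Pi.smul_apply, ha, smul_eq_mul, smul_eq_mul]
    ring

lemma spE_stable (g : G) (f : G → ℂ) (hf : f ∈ spE K χ) : regR G g f ∈ spE K χ := by
  intro κ x
  show f (κ * x * g) = _ * f (x * g)
  rw [mul_assoc]
  exact hf κ (x * g)

/-- the representation on `spE` -/
def repE : Representation ℂ G (spE K χ) :=
  (⟨spE K χ, fun g _ hf => spE_stable K χ g _ hf⟩ : Subrepresentation (regR G)).toRepresentation

/-- Every nonzero stable subspace contains the character `χ`. -/
lemma spE_vec (W : Submodule ℂ (spE K χ)) (hW : ∀ g, ∀ w ∈ W, repE K χ g w ∈ W) (h0 : W ≠ ⊥) :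
    ∃ v ∈ W, v ≠ 0 ∧ ∀ κ : K, repE K χ (κ : G) v = ((χ κ : ℂˣ) : ℂ) • v := by
  classical
  have : Fintype K := Fintype.ofFinite K
  obtain ⟨w, hw, hw0⟩ := Submodule.exists_mem_ne_zero_of_ne_bot h0
  obtain ⟨x₀, hx₀⟩ : ∃ x, (w : G → ℂ) x ≠ 0 := by
    by_contra hcon
    push Not at hcon
    exact hw0 (Subtype.ext (funext hcon))
  set v : spE K χ := ∑ κ : K, (((χ κ)⁻¹ : ℂˣ) : ℂ) • repE K χ ((κ : G) * x₀) w with hv
  have hval : ∀ (g x : G), (repE K χ g w : G → ℂ) x = (w : G → ℂ) (x * g) := fun g x => rfl
  have hv1 : (v : G → ℂ) 1 ≠ 0 := by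
    have h1 : (v : G → ℂ) 1 = Fintype.card K * (w : G → ℂ) x₀ := by
      rw [hv]
      simp only [Submodule.coe_sum, Submodule.coe_smul, Finset.sum_apply, Pi.smul_apply, hval, one_mul]
      have h2 : ∀ κ : K, (((χ κ)⁻¹ : ℂˣ) : ℂ) • (w : G → ℂ) (κ * x₀) = (w : G → ℂ) x₀ := by
        intro κ
        rw [w.2 κ x₀, smul_eq_mul, ← mul_assoc, ← Units.val_mul, inv_mul_cancel, Units.val_one, one_mul]
      rw [Finset.sum_congr rfl (fun κ _ => h2 κ), Finset.sum_const, Finset.card_univ, nsmul_eq_mul]
    rw [h1]
    exact mul_ne_zero (by exact_mod_cast Fintype.card_ne_zero) hx₀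
  refine ⟨v, ?_, ?_, ?_⟩
  · rw [hv]
    exact Submodule.sum_mem _ fun κ _ => Submodule.smul_mem _ _ (hW _ _ hw)
  · rintro h
    apply hv1
    rw [h]
    rfl
  · intro κ₀
    rw [hv, map_sum, Finset.smul_sum]
    refine Finset.sum_bij' (fun κ _ => κ₀ * κ) (fun κ _ => κ₀⁻¹ * κ) (fun _ _ => Finset.mem_univ _)
      (fun _ _ => Finset.mem_univ _) (fun κ _ => by simp) (fun κ _ => by simp) ?_
    intro κ _
    rw [map_smul, smul_smul]
    have h3 : ((χ κ₀ : ℂˣ) : ℂ) * (((χ (κ₀ * κ))⁻¹ : ℂˣ) : ℂ) = (((χ κ)⁻¹ : ℂˣ) : ℂ) := by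
      rw [← Units.val_mul, map_mul, mul_inv_rev, mul_comm, inv_mul_cancel_right]
    rw [h3]
    congr 1
    rw [← Module.End.mul_apply, ← map_mul, Subgroup.coe_mul, mul_assoc]

end Pool.Agent.H498.BT
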