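import Pool.Agent.H498.BT.Blk

/-!
# Toral matrices which commute with a given matrix of order prime to `p`
-/

set_option autoImplicit false

namespace Pool.Agent.H498.BT

open Polynomial Matrix

variable {R k : Type} [CommRing R] [Field k] (π : R →+* k)

/-- `β ∈ M_n(R)` is toral modulo `e`: all `x ∈ GL_n(R)` which commute with `β` modulo the annihilator of `e` have
a reduction of order prime to `p`. -/
def Toral (p : ℕ) (e : R) {n : ℕ} (β : Matrix (Fin n) (Fin n) R) : Prop :=
  ∀ x : GL (Fin n) R, e • ((x : Matrix (Fin n) (Fin n) R) * β) = e • (β * (x : Matrix (Fin n) (Fin n) R)) →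
    ¬ p ∣ orderOf (GeneralLinearGroup.map π x)

variable {π}

lemma gl_isUnit (hπ : NilSurj π) {n : ℕ} (M : Matrix (Fin n) (Fin n) R) (h : IsUnit (M.map π)) : IsUnit M := by
  rw [Matrix.isUnit_iff_isUnit_det] at h ⊢
  apply hπ.isUnit
  have h1 : (M.map π).det = π M.det := by
    rw [RingHom.map_det]; rfl
  rw [← h1]
  exact h.ne_zero

/-- Conjugacy of elements of order prime to `p` with the same reduction. -/
lemma conj_of_red (hπ : NilSurj π) {n : ℕ} (u v : GL (Fin n) R) (N : ℕ) (hN : (N : k) ≠ 0)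
    (hu : u ^ N = 1) (hv : v ^ N = 1) (huv : GeneralLinearGroup.map π u = GeneralLinearGroup.map π v) :
    ∃ y : GL (Fin n) R, y * u = v * y := by
  classical
  set Y : Matrix (Fin n) (Fin n) R := ∑ i ∈ Finset.range N, ((v ^ i * (u⁻¹) ^ i : GL (Fin n) R) : Matrix (Fin n) (Fin n) R) with hY
  have h1 : Y.map π = (N : k) • (1 : Matrix (Fin n) (Fin n) k) := by
    have h2 : Y.map π = π.mapMatrix Y := rfl
    rw [h2, hY, map_sum]
    have h3 : ∀ i ∈ Finset.range N, π.mapMatrix ((v ^ i * (u⁻¹) ^ i : GL (Fin n) R) : Matrix (Fin n) (Fin n) R) = 1 := by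
      intro i _
      have h4 : GeneralLinearGroup.map π (v ^ i * (u⁻¹) ^ i) = 1 := by
        rw [map_mul, map_pow, map_pow, map_inv, huv, inv_pow, mul_inv_cancel]
      have h5 := congrArg (fun g : GL (Fin n) k => (g : Matrix (Fin n) (Fin n) k)) h4
      exact h5
    rw [Finset.sum_congr rfl h3, Finset.sum_const, Finset.card_range]
    rw [Nat.cast_smul_eq_nsmul]
  have h2 : IsUnit Y := by
    apply gl_isUnit hπ
    rw [h1, Matrix.isUnit_iff_isUnit_det, Matrix.det_smul, det_one, mul_one]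
    exact (IsUnit.mk0 _ hN).pow _
  obtain ⟨y, hy⟩ := h2
  refine ⟨y, ?_⟩
  apply Units.ext
  rw [Units.val_mul, Units.val_mul, hy, hY, Finset.sum_mul, Finset.mul_sum]
  have h3 : ∀ i, ((v ^ i * (u⁻¹) ^ i : GL (Fin n) R) : Matrix (Fin n) (Fin n) R) * (u : Matrix (Fin n) (Fin n) R) =
      ((v ^ i * (u⁻¹) ^ i * u : GL (Fin n) R) : Matrix (Fin n) (Fin n) R) := fun i => (Units.val_mul _ _).symm
  have h4 : ∀ i, (v : Matrix (Fin n) (Fin n) R) * ((v ^ i * (u⁻¹) ^ i : GL (Fin n) R) : Matrix (Fin n) (Fin n) R) =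
      ((v * (v ^ i * (u⁻¹) ^ i) : GL (Fin n) R) : Matrix (Fin n) (Fin n) R) := fun i => (Units.val_mul _ _).symm
  simp only [h3, h4]
  -- cyclic shift
  have hN0 : N ≠ 0 := by rintro rfl; exact hN (by simp)
  obtain ⟨N', rfl⟩ : ∃ N', N = N' + 1 := ⟨N - 1, by omega⟩
  rw [Finset.sum_range_succ' (fun i => ((v ^ i * (u⁻¹) ^ i * u : GL (Fin n) R) : Matrix (Fin n) (Fin n) R)),
    Finset.sum_range_succ (fun i => ((v * (v ^ i * (u⁻¹) ^ i) : GL (Fin n) R) : Matrix (Fin n) (Fin n) R))]
  congr 1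
  · refine Finset.sum_congr rfl fun i _ => ?_
    congr 1
    rw [pow_succ, pow_succ, ← mul_assoc, inv_mul_cancel_right, mul_assoc, ← mul_assoc v, ← pow_succ', pow_succ]
    group
  · congr 1
    have h5 : v * v ^ N' = 1 := by rw [← pow_succ']; exact hv
    have h6 : u⁻¹ ^ N' = u := by
      rw [inv_pow, inv_eq_iff_mul_eq_one, ← pow_succ]
      exact hu
    rw [pow_zero, pow_zero, one_mul, one_mul, ← mul_assoc, h5, one_mul, h6]

/-- An element of order prime to `p` in the image of a finite group has a preimage of order prime to `p`, a power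
of any given preimage. -/
lemma preg_pow {G H : Type} [Group G] [Group H] [Finite G] (f : G →* H) (p : ℕ) (hp : p.Prime) (g : G)
    (h : ¬ p ∣ orderOf (f g)) : ∃ M : ℕ, f (g ^ M) = f g ∧ ¬ p ∣ orderOf (g ^ M) := by
  obtain ⟨a, m, hm, ham⟩ := Nat.exists_eq_pow_mul_and_not_dvd (orderOf_pos g).ne' p hp.ne_one
  have hcop : Nat.Coprime (p ^ a) m := Nat.Coprime.pow_left _ ((Nat.Prime.coprime_iff_not_dvd hp).2 hm)
  obtain ⟨M, hM1, hM2⟩ := Nat.chineseRemainder hcop 0 1
  refine ⟨M, ?_, ?_⟩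
  · have h1 : orderOf (f g) ∣ m := by
      have h2 : orderOf (f g) ∣ p ^ a * m := by rw [← ham]; exact orderOf_map_dvd f g
      exact (Nat.Coprime.dvd_of_dvd_mul_left ((Nat.Coprime.pow_left _
        ((Nat.Prime.coprime_iff_not_dvd hp).2 h)).symm) h2)
    rw [map_pow]
    conv_rhs => rw [← pow_one (f g)]
    rw [pow_eq_pow_iff_modEq]
    exact hM2.of_dvd h1
  · intro hd
    have h1 : orderOf (g ^ M) ∣ m := by
      rw [orderOf_dvd_iff_pow_eq_one, ← pow_mul]
      rw [← orderOf_dvd_iff_pow_eq_one, ham]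
      have := (Nat.modEq_zero_iff_dvd.1 hM1)
      exact Nat.mul_dvd_mul_right this m
    exact hm (hd.trans h1)

section Basis

variable {r : ℕ} {P : Fin r → R[X]} {p : Fin r → k[X]} (hP : ∀ j, (P j).Monic)
  (hPp : ∀ j, (P j).map π = p j)

/-- the basis of the product -/
noncomputable def bas (hP : ∀ j, (P j).Monic) :
    Module.Basis (Σ j, Fin (P j).natDegree) R (Π j, AdjoinRoot (P j)) :=
  Pi.basis fun j => AdjoinRoot.powerBasisAux' (hP j)

lemma redP_eq_zero (z : Π j, AdjoinRoot (P j)) : redP hPp z = 0 ↔ ∀ i, π ((bas hP).repr z i) = 0 := by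
  constructor
  · rintro h ⟨j, i⟩
    have h1 : red (hPp j) (z j) = 0 := congrFun h j
    have := (red_eq_zero (hP j) (hPp j) (z j)).1 h1 i
    rw [bas, Pi.basis_repr]
    exact this
  · intro h
    funext j
    rw [redP_apply]
    refine (red_eq_zero (hP j) (hPp j) (z j)).2 fun i => ?_
    have := h ⟨j, i⟩
    rw [bas, Pi.basis_repr] at this
    exact this

lemma redP_surj (hπ : NilSurj π) : Function.Surjective (redP hPp) := by
  intro y
  choose z hz using fun j => red_surj (hPp j) hπ (y j)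
  exact ⟨z, funext hz⟩

lemma redP_smul (a : R) (z : Π j, AdjoinRoot (P j)) : redP hPp (a • z) = π a • redP hPp z := by
  funext j
  exact red_smul (hPp j) a (z j)

/-- coordinates on the reduction -/
noncomputable def psi {ι : Type} [Fintype ι] (b : Module.Basis ι R (Π j, AdjoinRoot (P j))) :
    (ι → k) →ₗ[k] (Π j, AdjoinRoot (p j)) :=
  Fintype.linearCombination k (fun i => redP hPp (b i))

lemma psi_map {ι : Type} [Fintype ι] (b : Module.Basis ι R (Π j, AdjoinRoot (P j))) (z : Π j, AdjoinRoot (P j)) :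
    psi hPp b (fun i => π (b.repr z i)) = redP hPp z := by
  rw [psi, Fintype.linearCombination_apply]
  conv_rhs => rw [← b.sum_repr z]
  rw [map_sum]
  refine Finset.sum_congr rfl fun i _ => ?_
  rw [redP_smul]

lemma psi_bij {ι : Type} [Fintype ι] (hπ : NilSurj π) (b : Module.Basis ι R (Π j, AdjoinRoot (P j)))
    (hb : ∀ z, redP hPp z = 0 → ∀ i, π (b.repr z i) = 0) : Function.Bijective (psi hPp b) := by
  classical
  constructor
  · rw [← LinearMap.ker_eq_bot, LinearMap.ker_eq_bot']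
    intro a ha
    choose a' ha' using fun i => hπ.surj (a i)
    have h1 : a = fun i => π (b.repr (b.repr.symm (Finsupp.equivFunOnFinite.symm a')) i) := by
      funext i
      simp [ha']
    rw [h1, psi_map] at ha
    rw [h1]
    funext i
    exact hb _ ha i
  · intro y
    obtain ⟨z, rfl⟩ := redP_surj hPp hπ y
    exact ⟨_, psi_map hPp b z⟩

end Basis

end Pool.Agent.H498.BT
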