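import Pool.Graph.R_pool_sql_team_seeded_63374d34.N28.BM.Thm

/-!
# Weyl characters of `GL_2` at semisimple classes
-/

set_option autoImplicit false

namespace Pool.Agent.H498.BT

open Pool.Agent.N28.BM Finset

variable {S : Type} [Fintype S] [DecidableEq S]

/-- the monomial `x_{σ,0} ^ a * x_{σ,1} ^ b` -/
noncomputable def mon (σ : S) (a b : ℤ) : P S (1 + 1) := AddMonoidAlgebra.single (Pi.single σ ![a, b]) 1

omit [Fintype S] in
lemma mon_mul (σ : S) (a b c d : ℤ) : mon σ a b * mon σ c d = mon σ (a + c) (b + d) := by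
  unfold mon
  rw [AddMonoidAlgebra.single_mul_single, one_mul, ← Pi.single_add]
  congr 2
  funext i
  fin_cases i <;> simp

lemma prod_mon (v : Wt S (1 + 1)) : ∏ σ, mon σ (v σ 0) (v σ 1) = AddMonoidAlgebra.single v 1 := by
  have h1 : ∀ (A : Finset S), ∏ σ ∈ A, mon σ (v σ 0) (v σ 1) =
      AddMonoidAlgebra.single (∑ σ ∈ A, (Pi.single σ ![v σ 0, v σ 1] : Wt S (1 + 1))) 1 := by
    intro A
    induction A using Finset.induction_on with
    | empty => simp [AddMonoidAlgebra.one_def]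
    | insert σ A hσ ih =>
      rw [Finset.prod_insert hσ, ih, Finset.sum_insert hσ]
      unfold mon
      rw [AddMonoidAlgebra.single_mul_single, one_mul]
  rw [h1]
  congr 1
  have h2 : ∀ σ, (Pi.single σ ![v σ 0, v σ 1] : Wt S (1 + 1)) = Pi.single σ (v σ) := by
    intro σ
    congr 1
    funext i
    fin_cases i <;> rfl
  simp only [h2]
  exact Finset.univ_sum_single v

lemma altE_two (h : Wt S (1 + 1)) :
    altE h = ∏ σ, (mon σ (h σ 0) (h σ 1) - mon σ (h σ 1) (h σ 0)) := by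
  have h0 : ∀ σ, mon σ (h σ 0) (h σ 1) - mon σ (h σ 1) (h σ 0) =
      ∑ π : Equiv.Perm (Fin (1 + 1)), ((Equiv.Perm.sign π : ℤ) : ℤ) • mon σ (h σ (π 0)) (h σ (π 1)) := by
    intro σ
    have : (univ : Finset (Equiv.Perm (Fin (1 + 1)))) = {1, Equiv.swap 0 1} := by decide
    rw [this, Finset.sum_pair (by decide)]
    simp [sub_eq_add_neg]
  simp only [h0]
  rw [Finset.prod_univ_sum]
  unfold altE
  rw [Fintype.piFinset_univ]
  refine Finset.sum_congr rfl fun π _ => ?_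
  have h1 : ∏ σ, ((Equiv.Perm.sign (π σ) : ℤ) : ℤ) • mon σ (h σ (π σ 0)) (h σ (π σ 1)) =
      (∏ σ, ((Equiv.Perm.sign (π σ) : ℤ) : ℤ)) • ∏ σ, mon σ (h σ (π σ 0)) (h σ (π σ 1)) := by
    simp only [zsmul_eq_mul, Finset.prod_mul_distrib, Int.cast_prod]
  rw [h1]
  congr 1
  exact (prod_mon (actE π h)).symm

/-- the Weyl character of `GL_2` -/
lemma weyl_two (s : Wt S (1 + 1) → P S (1 + 1)) (hs : IsWeyl s) (h : Wt S (1 + 1)) (m : S → ℕ)
    (hm : ∀ σ, h σ 0 - h σ 1 = m σ) :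
    s h = ∏ σ, ∑ j ∈ range (m σ), mon σ (h σ 0 - 1 - j) (h σ 1 + j) := by
  apply cancel
  rw [hs h, altE_two, altE_two, ← Finset.prod_mul_distrib]
  refine Finset.prod_congr rfl fun σ _ => ?_
  have h1 : ∀ j : ℕ, mon σ (h σ 0 - 1 - j) (h σ 1 + j) * (mon σ (rho 1 0) (rho 1 1) - mon σ (rho 1 1) (rho 1 0)) =
      mon σ (h σ 0 - (j : ℕ)) (h σ 1 + (j : ℕ)) - mon σ (h σ 0 - ((j + 1 : ℕ) : ℤ)) (h σ 1 + ((j + 1 : ℕ) : ℤ)) := by
    intro j
    rw [mul_sub, mon_mul, mon_mul]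
    congr 2 <;> simp [rho] <;> ring
  rw [Finset.sum_mul, Finset.sum_congr rfl (fun j _ => h1 j),
    Finset.sum_range_sub' (fun j : ℕ => mon σ (h σ 0 - (j : ℤ)) (h σ 1 + (j : ℤ)))]
  rw [← hm σ]
  simp

omit [DecidableEq S] in
lemma evx_mon [DecidableEq S] (y : S → Fin (1 + 1) → ℂˣ) (σ : S) (a b : ℤ) :
    evx y (mon σ a b) = ((y σ 0 : ℂˣ) : ℂ) ^ a * ((y σ 1 : ℂˣ) : ℂ) ^ b := by
  unfold evx mon
  rw [AddMonoidAlgebra.lift_single, one_smul]
  simp only [MonoidHom.coe_mk, OneHom.coe_mk, toAdd_ofAdd]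
  rw [Finset.prod_eq_single σ]
  · rw [Pi.single_eq_same, Fin.prod_univ_two]
    simp
  · intro τ _ hτ
    rw [Pi.single_eq_of_ne hτ]
    simp
  · intro h; exact absurd (Finset.mem_univ σ) h

lemma evx_weyl_two (s : Wt S (1 + 1) → P S (1 + 1)) (hs : IsWeyl s) (h : Wt S (1 + 1)) (hh : Dom h)
    (y : S → Fin (1 + 1) → ℂˣ) : evx y (s h) = 0 ↔
      ∃ σ, y σ 0 ≠ y σ 1 ∧ (y σ 0) ^ (h σ 0 - h σ 1) = (y σ 1) ^ (h σ 0 - h σ 1) := by
  have hpos : ∀ σ, 0 < h σ 0 - h σ 1 := by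
    intro σ
    have := hh σ (show (0 : Fin (1 + 1)) < 1 by decide)
    linarith
  obtain ⟨m, hm⟩ : ∃ m : S → ℕ, ∀ σ, h σ 0 - h σ 1 = m σ :=
    ⟨fun σ => (h σ 0 - h σ 1).toNat, fun σ => (Int.toNat_of_nonneg (hpos σ).le).symm⟩
  rw [weyl_two s hs h m hm, map_prod, Finset.prod_eq_zero_iff]
  simp only [Finset.mem_univ, true_and]
  refine exists_congr fun σ => ?_
  rw [map_sum]
  simp only [evx_mon]
  set a : ℂ := ((y σ 0 : ℂˣ) : ℂ) with ha
  set b : ℂ := ((y σ 1 : ℂˣ) : ℂ) with hb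
  have ha0 : a ≠ 0 := (y σ 0).ne_zero
  have hb0 : b ≠ 0 := (y σ 1).ne_zero
  have hm0 : m σ ≠ 0 := by
    have := hpos σ
    rw [hm σ] at this
    exact_mod_cast this.ne'
  by_cases hab : y σ 0 = y σ 1
  · have hab' : a = b := by rw [ha, hb, hab]
    constructor
    · intro h0
      exfalso
      have h1 : ∀ j : ℕ, a ^ (h σ 0 - 1 - (j : ℤ)) * b ^ (h σ 1 + (j : ℤ)) = b ^ (h σ 0 - 1 + h σ 1) := by
        intro j
        rw [hab', ← zpow_add₀ hb0]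
        congr 1
        ring
      rw [Finset.sum_congr rfl (fun j _ => h1 j), Finset.sum_const, Finset.card_range, nsmul_eq_mul] at h0
      rcases mul_eq_zero.1 h0 with h2 | h2
      · exact hm0 (by exact_mod_cast h2)
      · exact zpow_ne_zero _ hb0 h2
    · rintro ⟨h0, _⟩
      exact absurd hab h0
  · have hab' : a - b ≠ 0 := by
      rw [sub_ne_zero]
      intro h0
      exact hab (Units.ext h0)
    have h1 : (∑ j ∈ range (m σ), a ^ (h σ 0 - 1 - (j : ℤ)) * b ^ (h σ 1 + (j : ℤ))) * (a - b) =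
        a ^ (h σ 0) * b ^ (h σ 1) - a ^ (h σ 1) * b ^ (h σ 0) := by
      have h2 : ∀ j : ℕ, a ^ (h σ 0 - 1 - (j : ℤ)) * b ^ (h σ 1 + (j : ℤ)) * (a - b) =
          a ^ (h σ 0 - (j : ℕ)) * b ^ (h σ 1 + (j : ℕ)) -
            a ^ (h σ 0 - ((j + 1 : ℕ) : ℤ)) * b ^ (h σ 1 + ((j + 1 : ℕ) : ℤ)) := by
        intro j
        have e1 : a ^ (h σ 0 - (j : ℤ)) = a ^ (h σ 0 - 1 - (j : ℤ)) * a := by
          rw [← zpow_add_one₀ ha0]; congr 1; ring
        have e2 : b ^ (h σ 1 + ((j + 1 : ℕ) : ℤ)) = b ^ (h σ 1 + (j : ℤ)) * b := by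
          rw [← zpow_add_one₀ hb0]; congr 1; push_cast; ring
        have e3 : h σ 0 - ((j + 1 : ℕ) : ℤ) = h σ 0 - 1 - (j : ℤ) := by push_cast; ring
        rw [e1, e2, e3]
        ring
      rw [Finset.sum_mul, Finset.sum_congr rfl (fun j _ => h2 j),
        Finset.sum_range_sub' (fun j : ℕ => a ^ (h σ 0 - (j : ℤ)) * b ^ (h σ 1 + (j : ℤ))), ← hm σ]
      simp
    have h3 : (∑ j ∈ range (m σ), a ^ (h σ 0 - 1 - (j : ℤ)) * b ^ (h σ 1 + (j : ℤ))) = 0 ↔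
        a ^ (h σ 0) * b ^ (h σ 1) - a ^ (h σ 1) * b ^ (h σ 0) = 0 := by
      rw [← h1]
      constructor
      · intro h; rw [h, zero_mul]
      · intro h; exact (mul_eq_zero.1 h).resolve_right hab'
    rw [h3, sub_eq_zero]
    have h4 : a ^ (h σ 0) * b ^ (h σ 1) = a ^ (h σ 1) * b ^ (h σ 0) ↔
        (y σ 0) ^ (h σ 0 - h σ 1) = (y σ 1) ^ (h σ 0 - h σ 1) := by
      rw [← Units.val_inj, Units.val_zpow_eq_zpow_val, Units.val_zpow_eq_zpow_val, ← ha, ← hb, zpow_sub₀ ha0,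
        zpow_sub₀ hb0, div_eq_div_iff (zpow_ne_zero _ ha0) (zpow_ne_zero _ hb0)]
      constructor
      · intro h; rw [h]; ring
      · intro h; rw [h]; ring
    rw [h4]
    exact ⟨fun h => ⟨hab, h⟩, fun h => h.2⟩

end Pool.Agent.H498.BT
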