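import Pool.Agent.H498.BT.Two

/-!
# The Hodge types for `GL_2` whose Weyl character does not vanish at semisimple classes
-/

set_option autoImplicit false

namespace Pool.Agent.H498.BT

open Pool.Agent.N28.BM Finset Polynomial

variable {k F : Type} [Field k] [Fintype k] [Field F] (ι : k →+* F)

lemma mem_range_of_pow (a : F) (ha : a ^ Fintype.card k = a) : ∃ b, ι b = a := by
  classical
  have hp : 1 < Fintype.card k := Fintype.one_lt_card
  have h0 : (X ^ Fintype.card k - X : k[X]) = ∏ b : k, (X - C b) := by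
    have hm : (X ^ Fintype.card k - X : k[X]).Monic := by
      apply monic_X_pow_sub
      rw [degree_X]
      exact_mod_cast hp
    have hroots := FiniteField.roots_X_pow_card_sub_X k
    have h1 : Multiset.card (X ^ Fintype.card k - X : k[X]).roots = (X ^ Fintype.card k - X : k[X]).natDegree := by
      rw [hroots, FiniteField.X_pow_card_sub_X_natDegree_eq k hp]
      rfl
    have h2 := prod_multiset_X_sub_C_of_monic_of_roots_card_eq hm h1
    rw [← h2, hroots]
    rfl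
  have h1 := congrArg (fun f => (f.map ι).eval a) h0
  simp only [Polynomial.map_sub, Polynomial.map_pow, map_X, eval_sub, eval_pow, eval_X, ha, sub_self,
    Polynomial.map_prod, map_C, eval_prod, eval_C] at h1
  obtain ⟨b, _, hb⟩ := Finset.prod_eq_zero_iff.1 h1.symm
  exact ⟨b, (sub_eq_zero.1 hb).symm⟩

/-- elements of `GL_2(k)` with given eigenvalues -/
lemma exists_gl_two [IsAlgClosed F] (x₀ x₁ : Fˣ)
    (h : (x₀ ^ Fintype.card k = x₀ ∧ x₁ ^ Fintype.card k = x₁) ∨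
      (x₀ ^ Fintype.card k = x₁ ∧ x₁ ^ Fintype.card k = x₀)) :
    ∃ g : GL (Fin (1 + 1)) k, IsEigen ι g ![x₀, x₁] := by
  obtain ⟨p, hp⟩ := CharP.exists k
  have : Fact p.Prime := ⟨CharP.char_is_prime k p⟩
  obtain ⟨f, _, hk⟩ := FiniteField.card k p
  have hpF : CharP F p := charP_of_injective_ringHom ι.injective p
  have hadd : ∀ a b : F, (a + b) ^ Fintype.card k = a ^ Fintype.card k + b ^ Fintype.card k := by
    intro a b
    rw [hk]
    exact add_pow_char_pow a b p f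
  have e0 : ((x₀ : F) ^ Fintype.card k = x₀ ∧ (x₁ : F) ^ Fintype.card k = x₁) ∨
      ((x₀ : F) ^ Fintype.card k = x₁ ∧ (x₁ : F) ^ Fintype.card k = x₀) := by
    rcases h with ⟨h1, h2⟩ | ⟨h1, h2⟩
    · left
      exact ⟨by exact_mod_cast congrArg Units.val h1, by exact_mod_cast congrArg Units.val h2⟩
    · right
      exact ⟨by exact_mod_cast congrArg Units.val h1, by exact_mod_cast congrArg Units.val h2⟩
  obtain ⟨b₁, hb₁⟩ := mem_range_of_pow ι ((x₀ : F) + x₁) (by
    rw [hadd]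
    rcases e0 with ⟨h1, h2⟩ | ⟨h1, h2⟩
    · rw [h1, h2]
    · rw [h1, h2, add_comm])
  obtain ⟨b₀, hb₀⟩ := mem_range_of_pow ι ((x₀ : F) * x₁) (by
    rw [mul_pow]
    rcases e0 with ⟨h1, h2⟩ | ⟨h1, h2⟩
    · rw [h1, h2]
    · rw [h1, h2, mul_comm])
  have hb0 : b₀ ≠ 0 := by
    rintro rfl
    rw [map_zero] at hb₀
    exact mul_ne_zero x₀.ne_zero x₁.ne_zero hb₀.symm
  obtain ⟨g, x', hg, _⟩ := exists_eigen (F := F) ι (n := 1) (Units.mk0 b₀ hb0, fun _ => -b₁)
  refine ⟨g, ?_⟩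
  unfold IsEigen
  rw [hg, Fin.prod_univ_two]
  unfold pol
  rw [Fin.sum_univ_two]
  simp only [Polynomial.map_add, Polynomial.map_mul, Polynomial.map_pow, map_X, map_C]
  have h1 : (Fin.cons ((Units.mk0 b₀ hb0 : kˣ) : k) (fun _ => -b₁) : Fin (1 + 1) → k) 0 = b₀ := rfl
  have h2 : (Fin.cons ((Units.mk0 b₀ hb0 : kˣ) : k) (fun _ => -b₁) : Fin (1 + 1) → k) 1 = -b₁ := rfl
  have h3 : (![x₀, x₁] : Fin (1 + 1) → Fˣ) 0 = x₀ := rfl
  have h4 : (![x₀, x₁] : Fin (1 + 1) → Fˣ) 1 = x₁ := rfl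
  rw [h1, h2, h3, h4, map_neg, hb₀, hb₁]
  simp only [C_mul, C_add, C_neg, Fin.val_zero, Fin.val_one, pow_zero, pow_one]
  ring

variable [IsAlgClosed F] {p f : ℕ} [hp : Fact p.Prime] [CharP F p] (hk : Fintype.card k = p ^ f)
  {S : Type} [Fintype S] [DecidableEq S] (κ : S → ZMod f) (t : Fˣ →* ℂˣ) (ht : Function.Injective t)
  (s : Wt S (1 + 1) → P S (1 + 1)) (hs : IsWeyl s)

include ht hs in
omit [Fintype k] [Field k] [IsAlgClosed F] in
lemma evx_pnt_two (h : Wt S (1 + 1)) (hh : Dom h) (x : Fin (1 + 1) → Fˣ) :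
    evx (pnt κ p t x) (s h) = 0 ↔ ∃ σ, x 0 ≠ x 1 ∧ (x 0 / x 1) ^ (h σ 0 - h σ 1) = 1 := by
  rw [evx_weyl_two s hs h hh]
  refine exists_congr fun σ => ?_
  have hfrob : ∀ a : ℕ, Function.Injective (fun z : Fˣ => z ^ (p ^ a)) := by
    intro a z w hzw
    apply Units.ext
    have h1 : (z : F) ^ (p ^ a) = (w : F) ^ (p ^ a) := by
      have := congrArg Units.val hzw
      simpa using this
    exact iterateFrobenius_inj F p a h1
  have hpn : ∀ i, pnt κ p t x σ i = t (x i ^ (p ^ (κ σ).val)) := fun i => by rw [map_pow]; rfl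
  rw [hpn, hpn]
  refine and_congr ?_ ?_
  · rw [Ne, Ne, ht.eq_iff, (hfrob _).eq_iff]
  · rw [← map_zpow, ← map_zpow, ht.eq_iff, div_zpow, div_eq_one]
    have e : ∀ z : Fˣ, (z ^ p ^ (κ σ).val) ^ (h σ 0 - h σ 1) = (z ^ (h σ 0 - h σ 1)) ^ p ^ (κ σ).val := by
      intro z
      rw [← zpow_natCast, ← zpow_natCast, ← zpow_mul, ← zpow_mul, mul_comm]
    rw [e, e]
    exact (hfrob _).eq_iff

include ht hs hk in
/-- **The criterion for `GL_2`.** -/
theorem two_criterion (h : Wt S (1 + 1)) (hh : Dom h) :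
    (∀ (g : GL (Fin (1 + 1)) k) (x : Fin (1 + 1) → Fˣ), IsEigen ι g x → evx (pnt κ p t x) (s h) ≠ 0) ↔
      ∀ σ, IsCoprime (h σ 0 - h σ 1) ((Fintype.card k : ℤ) ^ 2 - 1) := by
  classical
  set q := Fintype.card k with hq
  have hq1 : 1 < q := Fintype.one_lt_card
  constructor
  · intro H σ
    by_contra hcon
    rw [Int.isCoprime_iff_gcd_eq_one] at hcon
    obtain ⟨l, hl, hld⟩ := Nat.exists_prime_and_dvd hcon
    have hl1 : (l : ℤ) ∣ h σ 0 - h σ 1 := (Int.natCast_dvd_natCast.2 hld).trans (Int.gcd_dvd_left _ _)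
    have hl2 : (l : ℤ) ∣ (q : ℤ) ^ 2 - 1 := (Int.natCast_dvd_natCast.2 hld).trans (Int.gcd_dvd_right _ _)
    have hlp : (l : F) ≠ 0 := by
      intro h0
      have h1 : p ∣ l := (CharP.cast_eq_zero_iff F p l).1 h0
      have h2 : p = l := (Nat.prime_dvd_prime_iff_eq hp.out hl).1 h1
      have h3 : (p : ℤ) ∣ (q : ℤ) ^ 2 - 1 := by rw [h2]; exact hl2
      have h4 : (p : ℤ) ∣ (q : ℤ) := by
        have hf0 : f ≠ 0 := by
          rintro rfl
          rw [pow_zero] at hk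
          omega
        rw [hk]
        push_cast
        exact dvd_pow_self _ hf0
      have h5 : (p : ℤ) ∣ 1 := by
        have := dvd_sub (dvd_pow h4 (two_ne_zero)) h3
        simpa using this
      exact hp.out.one_lt.ne' (by exact_mod_cast Int.natAbs_dvd_natAbs.2 h5 |> Nat.dvd_one.1)
    have : NeZero (l : F) := ⟨hlp⟩
    obtain ⟨z', hz'⟩ := HasEnoughRootsOfUnity.exists_primitiveRoot F l
    obtain ⟨z, rfl⟩ := hz'.isUnit hl.ne_zero
    have hz : IsPrimitiveRoot z l := IsPrimitiveRoot.coe_units_iff.1 hz'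
    have hz1 : z ≠ 1 := hz.ne_one hl.one_lt
    have hzd : z ^ (h σ 0 - h σ 1) = 1 := (hz.zpow_eq_one_iff_dvd _).2 hl1
    have hzq : z ^ q = z ∨ z ^ q = z⁻¹ := by
      have h1 : (l : ℤ) ∣ ((q : ℤ) - 1) * ((q : ℤ) + 1) := by
        have : ((q : ℤ) - 1) * ((q : ℤ) + 1) = (q : ℤ) ^ 2 - 1 := by ring
        rw [this]; exact hl2
      rcases (Nat.prime_iff_prime_int.1 hl).dvd_or_dvd h1 with h2 | h2
      · left
        have h3 := (hz.zpow_eq_one_iff_dvd _).2 h2
        rw [zpow_sub, zpow_natCast, zpow_one, mul_inv_eq_one] at h3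
        exact h3
      · right
        have h3 := (hz.zpow_eq_one_iff_dvd _).2 h2
        rw [zpow_add, zpow_natCast, zpow_one] at h3
        exact eq_inv_of_mul_eq_one_left h3
    obtain ⟨x₀, x₁, hx, hxz⟩ : ∃ x₀ x₁ : Fˣ, ((x₀ ^ q = x₀ ∧ x₁ ^ q = x₁) ∨ (x₀ ^ q = x₁ ∧ x₁ ^ q = x₀)) ∧
        x₀ / x₁ = z := by
      rcases hzq with h1 | h1
      · exact ⟨z, 1, Or.inl ⟨h1, one_pow _⟩, by simp⟩
      · obtain ⟨w', hw'⟩ := IsAlgClosed.exists_pow_nat_eq ((z⁻¹ : Fˣ) : F) (show 0 < q - 1 by omega)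
        have hw0 : w' ≠ 0 := by
          rintro rfl
          rw [zero_pow (by omega)] at hw'
          exact (z⁻¹).ne_zero hw'.symm
        set w : Fˣ := Units.mk0 w' hw0 with hw
        have hwz : w ^ (q - 1) = z⁻¹ := by
          apply Units.ext
          rw [Units.val_pow_eq_pow_val]
          exact hw'
        have hwq : w ^ q = w * z⁻¹ := by
          have : q = (q - 1) + 1 := by omega
          rw [this, pow_succ, hwz, mul_comm]
        refine ⟨w, w ^ q, Or.inr ⟨rfl, ?_⟩, ?_⟩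
        · rw [hwq, mul_pow, hwq, inv_pow, h1, inv_inv, inv_mul_cancel_right]
        · rw [hwq, div_mul_eq_div_div, div_self', one_div, inv_inv]
    obtain ⟨g, hg⟩ := exists_gl_two (k := k) ι x₀ x₁ hx
    apply H g _ hg
    rw [evx_pnt_two κ t ht s hs h hh]
    refine ⟨σ, ?_, ?_⟩
    · show x₀ ≠ x₁
      intro h0
      apply hz1
      rw [← hxz, h0, div_self']
    · show (x₀ / x₁) ^ _ = 1
      rw [hxz]
      exact hzd
  · intro H g x hx h0
    rw [evx_pnt_two κ t ht s hs h hh] at h0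
    obtain ⟨σ, hne, hz⟩ := h0
    set z := x 0 / x 1 with hzdef
    have hfs := frob_stable ι hk g x hx
    have h1 : ({x 0 ^ q, x 1 ^ q} : Multiset Fˣ) = {x 0, x 1} := by
      have e1 : (univ : Finset (Fin (1 + 1))).val.map (fun i => x i ^ (p ^ f)) = {x 0 ^ q, x 1 ^ q} := by
        rw [← hk]
        rfl
      have e2 : (univ : Finset (Fin (1 + 1))).val.map x = {x 0, x 1} := rfl
      rw [← e1, ← e2]
      exact hfs
    have h2 : (x 0 ^ q = x 0 ∧ x 1 ^ q = x 1) ∨ (x 0 ^ q = x 1 ∧ x 1 ^ q = x 0) := by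
      have h3 : x 0 ^ q ∈ ({x 0, x 1} : Multiset Fˣ) := by
        rw [← h1]; simp
      rw [Multiset.insert_eq_cons, Multiset.mem_cons, Multiset.mem_singleton] at h3
      rcases h3 with h3 | h3
      · left
        refine ⟨h3, ?_⟩
        rw [h3, Multiset.insert_eq_cons, Multiset.insert_eq_cons, Multiset.cons_inj_right] at h1
        exact Multiset.singleton_inj.1 h1
      · right
        refine ⟨h3, ?_⟩
        rw [h3, Multiset.pair_comm, Multiset.insert_eq_cons, Multiset.insert_eq_cons] at h1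
        have h4 : (x 1 ^ q ::ₘ ({x 1} : Multiset Fˣ)) = x 0 ::ₘ {x 1} := h1
        rw [Multiset.cons_inj_left] at h4
        exact h4
    have hzq : z ^ (q ^ 2 - 1 : ℤ) = 1 := by
      have e1 : z ^ (q ^ 2) = z := by
        rw [pow_two, pow_mul]
        rcases h2 with ⟨a, b⟩ | ⟨a, b⟩
        · rw [hzdef, div_pow, a, b, div_pow, a, b]
        · rw [hzdef, div_pow, a, b, div_pow, a, b]
      rw [zpow_sub, zpow_one, mul_inv_eq_one]
      exact_mod_cast e1
    obtain ⟨a, b, hab⟩ := H σ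
    apply hne
    have h5 : z = 1 := by
      rw [← zpow_one z, ← hab, zpow_add, mul_comm a, mul_comm b, zpow_mul, zpow_mul, hz, hzq, one_zpow, one_zpow,
        mul_one]
    exact div_eq_one.1 h5

end Pool.Agent.H498.BT
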